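import Mathlib

/-!
# The combinatorics of the patterns
-/

set_option autoImplicit false

namespace H10.FA

/-- the table of the excluded patterns -/
def tbl : ℕ := 18075728896214617935963921884076172054532478843819801884776437616034814642752

def bad (p0 p1 p2 p3 p4 : ZMod 4) : Bool :=
  tbl.testBit ((p1 - p0).val + 4 * (p2 - p0).val + 16 * (p3 - p0).val + 64 * (p4 - p0).val)

/-- the representatives -/
def dd : Fin 7 → ZMod 5 → ZMod 4 :=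
  ![![0, 0, 0, 1, 2], ![0, 0, 1, 1, 2], ![0, 0, 1, 2, 1], ![0, 0, 1, 2, 2], ![0, 0, 1, 2, 3],
    ![0, 0, 1, 3, 2], ![0, 0, 2, 1, 2]]

def sg : Bool → ZMod 4 → ZMod 4
  | true, n => n
  | false, n => -n

theorem bad_spec : ∀ q1 q2 q3 q4 : ZMod 4, bad 0 q1 q2 q3 q4 = true →
    ∃ i : Fin 7, ∃ a : ZMod 5, a ≠ 0 ∧ ∃ b : ZMod 5, ∃ e : Bool,
      sg e (dd i b) - sg e (dd i b) = 0 ∧ q1 = sg e (dd i (a + b)) - sg e (dd i b) ∧
      q2 = sg e (dd i (2 * a + b)) - sg e (dd i b) ∧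
      q3 = sg e (dd i (3 * a + b)) - sg e (dd i b) ∧
      q4 = sg e (dd i (4 * a + b)) - sg e (dd i b) := by
  decide +kernel

theorem bad_shift (p0 p1 p2 p3 p4 : ZMod 4) :
    bad p0 p1 p2 p3 p4 = bad 0 (p1 - p0) (p2 - p0) (p3 - p0) (p4 - p0) := by
  simp [bad]

theorem comb : ∀ A2 A3 A4 : ZMod 4, bad 0 1 A2 A3 A4 = false →
    ∀ B1 B4 : ZMod 4, bad B4 (-B1) (-1) 0 A4 = false →
    ∀ B2 B3 : ZMod 4, bad 0 B1 B2 B3 B4 = false →
    (∀ C : ZMod 4, bad (-A4) (-A2) (-(2 * A2)) (B2 - 3 * A2) (-C + A2) = true) ∨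
    (∀ C : ZMod 4, bad (-B1) (-1) (-(2 * 1)) (A2 - 3 * 1) (-C + 1) = true) ∨
    (∀ C : ZMod 4, bad (-B4) (-A4) (-(2 * A4)) (A3 - 3 * A4) (-C + A4) = true) := by
  decide +kernel

end H10.FA
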