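import Mathlib

/-!
# A small verified polynomial arithmetic over `ℤ[ζ₅, i]`
-/

set_option autoImplicit false

namespace H10.FA

/-- operations on a type of coefficients -/
structure Ops (α : Type) where
  zero : α
  add : α → α → α
  mul : α → α → α
  neg : α → α
  isZ : α → Bool

/-- the operations are compatible with an evaluation map -/
structure Sound {α : Type} (o : Ops α) {S : Type*} [CommRing S] (ev : α → S) : Prop where
  zero : ev o.zero = 0
  add : ∀ a b, ev (o.add a b) = ev a + ev b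
  mul : ∀ a b, ev (o.mul a b) = ev a * ev b
  neg : ∀ a, ev (o.neg a) = -ev a
  isZ : ∀ a, o.isZ a = true → ev a = 0

section Lists

variable {α : Type}

def ladd (o : Ops α) : List α → List α → List α
  | [], q => q
  | a :: p, [] => a :: p
  | a :: p, b :: q => o.add a b :: ladd o p q

def lsmul (o : Ops α) (a : α) : List α → List α
  | [] => []
  | b :: q => o.mul a b :: lsmul o a q

def lmul (o : Ops α) : List α → List α → List α
  | [], _ => []
  | a :: p, q => ladd o (lsmul o a q) (o.zero :: lmul o p q)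

def lneg (o : Ops α) : List α → List α
  | [] => []
  | b :: q => o.neg b :: lneg o q

def lisZ (o : Ops α) : List α → Bool
  | [] => true
  | b :: q => o.isZ b && lisZ o q

def listOps (o : Ops α) : Ops (List α) := ⟨[], ladd o, lmul o, lneg o, lisZ o⟩

def lev {S : Type*} [CommRing S] (ev : α → S) (x : S) : List α → S
  | [] => 0
  | a :: p => ev a + x * lev ev x p

variable {S : Type*} [CommRing S] {o : Ops α} {ev : α → S}

theorem lev_add (h : Sound o ev) (x : S) (p q : List α) :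
    lev ev x (ladd o p q) = lev ev x p + lev ev x q := by
  induction p generalizing q with
  | nil => simp [ladd, lev]
  | cons a p ih =>
    cases q with
    | nil => simp [ladd, lev]
    | cons b q => simp only [ladd, lev, ih, h.add]; ring

theorem lev_smul (h : Sound o ev) (x : S) (a : α) (q : List α) :
    lev ev x (lsmul o a q) = ev a * lev ev x q := by
  induction q with
  | nil => simp [lsmul, lev]
  | cons b q ih => simp only [lsmul, lev, ih, h.mul]; ring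

theorem lev_mul (h : Sound o ev) (x : S) (p q : List α) :
    lev ev x (lmul o p q) = lev ev x p * lev ev x q := by
  induction p with
  | nil => simp [lmul, lev]
  | cons a p ih => simp only [lmul, lev, lev_add h, lev_smul h, ih, h.zero]; ring

theorem lev_neg (h : Sound o ev) (x : S) (q : List α) :
    lev ev x (lneg o q) = -lev ev x q := by
  induction q with
  | nil => simp [lneg, lev]
  | cons b q ih => simp only [lneg, lev, ih, h.neg]; ring

theorem lev_isZ (h : Sound o ev) (x : S) (q : List α) (hq : lisZ o q = true) :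
    lev ev x q = 0 := by
  induction q with
  | nil => simp [lev]
  | cons b q ih =>
    rw [lisZ, Bool.and_eq_true] at hq
    rw [lev, h.isZ _ hq.1, ih hq.2, mul_zero, add_zero]

theorem listSound (h : Sound o ev) (x : S) : Sound (listOps o) (lev ev x) where
  zero := rfl
  add := lev_add h x
  mul := lev_mul h x
  neg := lev_neg h x
  isZ := lev_isZ h x

end Lists

/-- elements of `ℤ[ζ₅, i]`: four Gaussian integers -/
structure K where
  a0 : ℤ
  b0 : ℤ
  a1 : ℤ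
  b1 : ℤ
  a2 : ℤ
  b2 : ℤ
  a3 : ℤ
  b3 : ℤ

def evalK {R : Type*} [Ring R] (y i : R) (k : K) : R :=
  (k.a0 + k.b0 * i) + (k.a1 + k.b1 * i) * y + (k.a2 + k.b2 * i) * (y * y) +
    (k.a3 + k.b3 * i) * (y * y * y)

def K.add (p q : K) : K :=
  ⟨p.a0 + q.a0, p.b0 + q.b0, p.a1 + q.a1, p.b1 + q.b1, p.a2 + q.a2, p.b2 + q.b2, p.a3 + q.a3,
    p.b3 + q.b3⟩

def K.neg (p : K) : K := ⟨-p.a0, -p.b0, -p.a1, -p.b1, -p.a2, -p.b2, -p.a3, -p.b3⟩

def K.mul (p q : K) : K :=
  let r0 := p.a0 * q.a0 - p.b0 * q.b0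
  let s0 := p.a0 * q.b0 + p.b0 * q.a0
  let r1 := p.a0 * q.a1 - p.b0 * q.b1 + (p.a1 * q.a0 - p.b1 * q.b0)
  let s1 := p.a0 * q.b1 + p.b0 * q.a1 + (p.a1 * q.b0 + p.b1 * q.a0)
  let r2 := p.a0 * q.a2 - p.b0 * q.b2 + (p.a1 * q.a1 - p.b1 * q.b1) + (p.a2 * q.a0 - p.b2 * q.b0)
  let s2 := p.a0 * q.b2 + p.b0 * q.a2 + (p.a1 * q.b1 + p.b1 * q.a1) + (p.a2 * q.b0 + p.b2 * q.a0)
  let r3 := p.a0 * q.a3 - p.b0 * q.b3 + (p.a1 * q.a2 - p.b1 * q.b2) + (p.a2 * q.a1 - p.b2 * q.b1) +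
    (p.a3 * q.a0 - p.b3 * q.b0)
  let s3 := p.a0 * q.b3 + p.b0 * q.a3 + (p.a1 * q.b2 + p.b1 * q.a2) + (p.a2 * q.b1 + p.b2 * q.a1) +
    (p.a3 * q.b0 + p.b3 * q.a0)
  let r4 := p.a1 * q.a3 - p.b1 * q.b3 + (p.a2 * q.a2 - p.b2 * q.b2) + (p.a3 * q.a1 - p.b3 * q.b1)
  let s4 := p.a1 * q.b3 + p.b1 * q.a3 + (p.a2 * q.b2 + p.b2 * q.a2) + (p.a3 * q.b1 + p.b3 * q.a1)
  let r5 := p.a2 * q.a3 - p.b2 * q.b3 + (p.a3 * q.a2 - p.b3 * q.b2)
  let s5 := p.a2 * q.b3 + p.b2 * q.a3 + (p.a3 * q.b2 + p.b3 * q.a2)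
  let r6 := p.a3 * q.a3 - p.b3 * q.b3
  let s6 := p.a3 * q.b3 + p.b3 * q.a3
  ⟨r0 + r5 - r4, s0 + s5 - s4, r1 + r6 - r4, s1 + s6 - s4, r2 - r4, s2 - s4, r3 - r4, s3 - s4⟩

def K.isZ (p : K) : Bool :=
  p.a0 == 0 && p.b0 == 0 && p.a1 == 0 && p.b1 == 0 && p.a2 == 0 && p.b2 == 0 && p.a3 == 0 &&
    p.b3 == 0

def kOps : Ops K := ⟨⟨0, 0, 0, 0, 0, 0, 0, 0⟩, K.add, K.mul, K.neg, K.isZ⟩

theorem evalK_add' {R : Type*} [Ring R] (y i : R) (p q : K) :
    evalK y i (p.add q) = evalK y i p + evalK y i q := by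
  simp only [evalK, K.add]
  push_cast
  noncomm_ring

theorem kSound {S : Type*} [CommRing S] (y i : S) (hy : 1 + y + y * y + y * y * y + y * y * y * y = 0)
    (hi : i * i = -1) : Sound kOps (evalK y i) where
  zero := by simp [evalK, kOps]
  add := by intro p q; exact evalK_add' y i p q
  mul := by
    intro p q
    simp only [evalK, K.mul, kOps]
    push_cast
    linear_combination (exp := 1)
      (-(1:S)) * ((((p.a1 : S) * q.a3 - p.b1 * q.b3 + (p.a2 * q.a2 - p.b2 * q.b2) + (p.a3 * q.a1 - p.b3 * q.b1)) +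
        ((p.a1 : S) * q.b3 + p.b1 * q.a3 + (p.a2 * q.b2 + p.b2 * q.a2) + (p.a3 * q.b1 + p.b3 * q.a1)) * i) +
        (((p.a2 : S) * q.a3 - p.b2 * q.b3 + (p.a3 * q.a2 - p.b3 * q.b2)) +
        ((p.a2 : S) * q.b3 + p.b2 * q.a3 + (p.a3 * q.b2 + p.b3 * q.a2)) * i) * (y - 1) +
        (((p.a3 : S) * q.a3 - p.b3 * q.b3) + ((p.a3 : S) * q.b3 + p.b3 * q.a3) * i) * y * (y - 1)) * hy -
      (((p.b0 : S) + p.b1 * y + p.b2 * (y * y) + p.b3 * (y * y * y)) *
        ((q.b0 : S) + q.b1 * y + q.b2 * (y * y) + q.b3 * (y * y * y))) * hi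
  neg := by
    intro p
    simp only [evalK, K.neg, kOps]
    push_cast
    ring
  isZ := by
    intro p hp
    simp only [kOps, K.isZ, Bool.and_eq_true, beq_iff_eq] at hp
    obtain ⟨⟨⟨⟨⟨⟨⟨h0, h1⟩, h2⟩, h3⟩, h4⟩, h5⟩, h6⟩, h7⟩ := hp
    simp [evalK, h0, h1, h2, h3, h4, h5, h6, h7]

end H10.FA
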