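import Mathlib
import Pool.Agent.H10.FA.Poly

/-!
# The checker for the certificates
-/

set_option autoImplicit false

namespace H10.FA

abbrev P3 := List (List (List K))

def p3 : Ops P3 := listOps (listOps (listOps kOps))

def gauss (m : ℕ) : ℤ × ℤ :=
  match m % 4 with
  | 0 => (1, 0)
  | 1 => (0, 1)
  | 2 => (-1, 0)
  | _ => (0, -1)

/-- the element `y ^ n i ^ m` -/
def mono (n m : ℕ) : K :=
  match n % 5 with
  | 0 => ⟨(gauss m).1, (gauss m).2, 0, 0, 0, 0, 0, 0⟩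
  | 1 => ⟨0, 0, (gauss m).1, (gauss m).2, 0, 0, 0, 0⟩
  | 2 => ⟨0, 0, 0, 0, (gauss m).1, (gauss m).2, 0, 0⟩
  | 3 => ⟨0, 0, 0, 0, 0, 0, (gauss m).1, (gauss m).2⟩
  | _ => ⟨-(gauss m).1, -(gauss m).2, -(gauss m).1, -(gauss m).2, -(gauss m).1, -(gauss m).2,
      -(gauss m).1, -(gauss m).2⟩

def coefK (f : ℕ → ℕ) (r : ℕ) : K :=
  ((((mono (5 * r) (f 0)).add (mono (4 * r) (f 1))).add (mono (3 * r) (f 2))).add
    (mono (2 * r) (f 3))).add (mono r (f 4))

def intK (n : ℤ) : K := ⟨n, 0, 0, 0, 0, 0, 0, 0⟩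

def aK (d : ℕ → ℕ) (r : ℕ) : K := coefK (fun k => 3 * d k) r
def bK (d : ℕ → ℕ) (r : ℕ) : K := coefK d r
def eK (d : ℕ → ℕ) (r : ℕ) : K := (intK 5).mul (coefK (fun k => 2 * d k) r)

def cst (k : K) : P3 := [[[k]]]
def pA : P3 := [[], [[intK 1]]]
def pB : P3 := [[[], [intK 1]]]
def pT : P3 := [[[intK 0, intK 1]]]

/-- addition, multiplication, negation -/
def pa (p q : P3) : P3 := p3.add p q
def pm (p q : P3) : P3 := p3.mul p q
def pn (p : P3) : P3 := p3.neg p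

section

variable (d : ℕ → ℕ)

def pX : P3 := pa pA (pn (cst (aK d 1)))
def pU : P3 := pa pB (pn (cst (bK d 4)))
def pP : P3 := pa (pa (pm (cst (aK d 3)) (pX d)) (pm (cst (bK d 0)) (pU d))) (cst (eK d 4))
def pQ : P3 := pa (pa (pm (cst (aK d 0)) (pX d)) (pm (cst (bK d 2)) (pU d))) (cst (eK d 1))
def pM : P3 := pn (pa (pa (pm pB (pU d)) (pm (cst (aK d 2)) (pX d))) (cst (eK d 3)))
def pN : P3 := pn (pa (pa (pm pA (pX d)) (pm (cst (bK d 3)) (pU d))) (cst (eK d 2)))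
def pL : P3 := pa (pa (pm (cst (aK d 4)) (pX d)) (pm (cst (bK d 1)) (pU d))) (cst (eK d 0))
def pW : P3 := pa (pm (cst (bK d 0)) (pa (pa (cst (intK 25)) (pn (pm (pX d) (pU d)))) (pn pT)))
  (pn (pm (pP d) pA))
def pC : P3 := pa (pm pA pB) (pn (cst ((aK d 0).mul (bK d 0))))

def pE0 : P3 := pm (pC d) (pP d)
def pE1 : P3 := pm (pC d) (pQ d)
def pE2 : P3 := pa (pm (cst (aK d 0)) (pm pA (pP d))) (pn (pm (cst (bK d 0)) (pm (pQ d) pB)))
def pE3 : P3 := pa (pm (cst (((aK d 0).mul (aK d 0)).add ((bK d 0).mul (bK d 0)))) pT)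
  (pn (pm (cst ((aK d 0).mul (bK d 0))) (pL d)))
def pE4 : P3 := pa (pm (cst (bK d 0)) (pm pA (pM d))) (pm pB (pW d))
def pE5 : P3 := pa (pm (cst (bK d 0)) (pm pB (pN d))) (pm pA (pW d))
def pE6 (s : ℤ) : P3 := pa (pa (pa (pm (cst (bK d 0)) (pm (pX d) (pN d)))
  (pn (pm (cst ((bK d 0).mul (aK d 0))) (pM d))))
  (pm (cst (((intK s).mul (aK d 3)).add (bK d 3).neg)) (pW d)))
  (pm (cst (((intK s).mul (bK d 0)).mul (bK d 1))) (pN d))

def total (s : ℤ) (c : Fin 7 → P3) : P3 :=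
  pa (pa (pa (pa (pa (pa (pm (c 0) (pE0 d)) (pm (c 1) (pE1 d))) (pm (c 2) (pE2 d)))
    (pm (c 3) (pE3 d))) (pm (c 4) (pE4 d))) (pm (c 5) (pE5 d))) (pm (c 6) (pE6 d s))

/-- the certificate: `∑ c_j E_j = n` -/
def check (s : ℤ) (c : Fin 7 → P3) (n : ℤ) : Bool :=
  p3.isZ (pa (total d s c) (cst (intK (-n))))

end

section Soundness

variable {S : Type*} [CommRing S] (y i T A B : S)

def ev3 : P3 → S := lev (lev (lev (evalK y i) T) B) A

variable {y i T A B}

theorem sound3 (hy : 1 + y + y * y + y * y * y + y * y * y * y = 0) (hi : i * i = -1) :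
    Sound p3 (ev3 y i T A B) :=
  listSound (listSound (listSound (kSound y i hy hi) T) B) A

theorem ev_cst (k : K) : ev3 y i T A B (cst k) = evalK y i k := by
  simp [ev3, cst, lev]

theorem evalK_int {R : Type*} [Ring R] (y i : R) (n : ℤ) : evalK y i (intK n) = n := by
  simp [evalK, intK]

theorem ev_A : ev3 y i T A B pA = A := by
  simp [ev3, pA, lev, evalK_int]

theorem ev_B : ev3 y i T A B pB = B := by
  simp [ev3, pB, lev, evalK_int]

theorem ev_T : ev3 y i T A B pT = T := by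
  simp [ev3, pT, lev, evalK_int]

theorem check_sound (d : ℕ → ℕ) (s : ℤ) (c : Fin 7 → P3) (n : ℤ)
    (hc : check d s c n = true)
    (hy : 1 + y + y * y + y * y * y + y * y * y * y = 0) (hi : i * i = -1)
    (a b e : ℕ → S) (ha : ∀ r, evalK y i (aK d r) = a r) (hb : ∀ r, evalK y i (bK d r) = b r)
    (he : ∀ r, evalK y i (eK d r) = e r) (X U P Q M N W : S)
    (hX : X = A - a 1) (hU : U = B - b 4) (hP : P = a 3 * X + b 0 * U + e 4)
    (hQ : Q = a 0 * X + b 2 * U + e 1) (hM : M = -(B * U + a 2 * X + e 3))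
    (hN : N = -(A * X + b 3 * U + e 2)) (hW : W = b 0 * (25 - X * U - T) - P * A)
    (E0 : (A * B - a 0 * b 0) * P = 0) (E1 : (A * B - a 0 * b 0) * Q = 0)
    (E2 : a 0 * (A * P) = b 0 * (Q * B))
    (E3 : (a 0 * a 0 + b 0 * b 0) * T = a 0 * b 0 * (a 4 * X + b 1 * U + e 0))
    (E4 : b 0 * (A * M) + B * W = 0) (E5 : b 0 * (B * N) + A * W = 0)
    (E6 : c 6 = [] ∨ b 0 * (X * N) - b 0 * a 0 * M + (s * a 3 - b 3) * W +
      s * b 0 * b 1 * N = 0) : (n : S) = 0 := by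
  have h3 := sound3 (T := T) (A := A) (B := B) hy hi
  have hadd : ∀ p q, ev3 y i T A B (pa p q) = ev3 y i T A B p + ev3 y i T A B q := h3.add
  have hmul : ∀ p q, ev3 y i T A B (pm p q) = ev3 y i T A B p * ev3 y i T A B q := h3.mul
  have hneg : ∀ p, ev3 y i T A B (pn p) = -ev3 y i T A B p := h3.neg
  have hk := kSound y i hy hi
  have kadd : ∀ p q : K, evalK y i (p.add q) = evalK y i p + evalK y i q := hk.add
  have kmul : ∀ p q : K, evalK y i (p.mul q) = evalK y i p * evalK y i q := hk.mul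
  have kneg : ∀ p : K, evalK y i p.neg = -evalK y i p := hk.neg
  have fX : ev3 y i T A B (pX d) = X := by
    rw [pX, hadd, hneg, ev_cst, ev_A, ha, hX]; ring
  have fU : ev3 y i T A B (pU d) = U := by
    rw [pU, hadd, hneg, ev_cst, ev_B, hb, hU]; ring
  have fP : ev3 y i T A B (pP d) = P := by
    simp only [pP, hadd, hmul, ev_cst, fX, fU, ha, hb, he]; rw [hP]
  have fQ : ev3 y i T A B (pQ d) = Q := by
    simp only [pQ, hadd, hmul, ev_cst, fX, fU, ha, hb, he]; rw [hQ]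
  have fM : ev3 y i T A B (pM d) = M := by
    simp only [pM, hadd, hmul, hneg, ev_cst, fX, fU, ha, hb, he, ev_B]; rw [hM]
  have fN : ev3 y i T A B (pN d) = N := by
    simp only [pN, hadd, hmul, hneg, ev_cst, fX, fU, ha, hb, he, ev_A]; rw [hN]
  have fL : ev3 y i T A B (pL d) = a 4 * X + b 1 * U + e 0 := by
    simp only [pL, hadd, hmul, ev_cst, fX, fU, ha, hb, he]
  have fW : ev3 y i T A B (pW d) = W := by
    simp only [pW, hadd, hmul, hneg, ev_cst, fX, fU, fP, ha, hb, he, ev_A, ev_T, evalK_int]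
    rw [hW]; push_cast; ring
  have fC : ev3 y i T A B (pC d) = A * B - a 0 * b 0 := by
    simp only [pC, hadd, hmul, hneg, ev_cst, ha, hb, ev_A, ev_B, kmul]; ring
  have g0 : ev3 y i T A B (pE0 d) = 0 := by
    rw [pE0, hmul, fC, fP, E0]
  have g1 : ev3 y i T A B (pE1 d) = 0 := by
    rw [pE1, hmul, fC, fQ, E1]
  have g2 : ev3 y i T A B (pE2 d) = 0 := by
    simp only [pE2, hadd, hmul, hneg, ev_cst, ha, hb, ev_A, ev_B, fP, fQ]
    rw [E2]; ring
  have g3 : ev3 y i T A B (pE3 d) = 0 := by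
    simp only [pE3, hadd, hmul, hneg, ev_cst, kadd, kmul, ha, hb, ev_T, fL]
    rw [E3]; ring
  have g4 : ev3 y i T A B (pE4 d) = 0 := by
    simp only [pE4, hadd, hmul, ev_cst, hb, ev_A, ev_B, fM, fW]
    rw [E4]
  have g5 : ev3 y i T A B (pE5 d) = 0 := by
    simp only [pE5, hadd, hmul, ev_cst, hb, ev_A, ev_B, fN, fW]
    rw [E5]
  have g6 : ev3 y i T A B (c 6) * ev3 y i T A B (pE6 d s) = 0 := by
    rcases E6 with h | h
    · rw [h]; simp [ev3, lev]
    · have : ev3 y i T A B (pE6 d s) = 0 := by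
        simp only [pE6, hadd, hmul, hneg, ev_cst, kadd, kmul, kneg, ha, hb, evalK_int, fX,
          fM, fN, fW]
        rw [← h]; ring
      rw [this, mul_zero]
  have ht : ev3 y i T A B (total d s c) = 0 := by
    simp only [total, hadd, hmul, g0, g1, g2, g3, g4, g5, g6, mul_zero, add_zero]
  have hz := h3.isZ _ hc
  rw [hadd, ht, ev_cst, evalK_int, zero_add] at hz
  push_cast at hz
  exact neg_eq_zero.1 hz

end Soundness

end H10.FA
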