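import Mathlib
import Pool.Agent.H10.FreeAct.Cases

/-!
# The relations between the types, for a twisted element of order five
-/

set_option autoImplicit false

namespace H10.FA

open Q6.FreeAct

variable {R : Type*} [Ring R]

/-- Fourier coefficients (times five) -/
def D (Y : ZMod 5 → R) (f : ZMod 5 → R) (r : ZMod 5) : R := ∑ k, Y (-k * r) * f k

theorem D_inv {Y : ZMod 5 → R} (h : Five Y) (f : ZMod 5 → R) (j : ZMod 5) :
    ∑ r, Y (r * j) * D Y f r = 5 * f j := by
  unfold D
  have h1 : ∀ r, Y (r * j) * ∑ k, Y (-k * r) * f k = ∑ k, Y ((j - k) * r) * f k := by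
    intro r
    rw [Finset.mul_sum]
    refine Finset.sum_congr rfl fun k _ => ?_
    rw [← mul_assoc, ← h.add]
    congr 2
    ring
  simp only [h1]
  rw [Finset.sum_comm]
  simp only [← Finset.sum_mul, h.sum_if, sub_eq_zero]
  simp

theorem typ_one_of_comm {Y : ZMod 5 → R} {w : R} (hw : ∀ k, w * Y k = Y k * w) : Typ Y 1 w := by
  intro k; rw [one_mul, hw]

theorem D_comm {Y : ZMod 5 → R} {f : ZMod 5 → R} {w : R}
    (hf : ∀ k, f k * w = w * f k) (hw : ∀ k, Y k * w = w * Y k) (r : ZMod 5) :
    D Y f r * w = w * D Y f r := by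
  unfold D
  rw [Finset.sum_mul, Finset.mul_sum]
  refine Finset.sum_congr rfl fun k _ => ?_
  rw [mul_assoc, hf, ← mul_assoc, hw, mul_assoc]

/-- moving a Fourier coefficient through an element of type `l` -/
theorem D_move {Y : ZMod 5 → R} {f : ZMod 5 → R} {w : R} {l : ZMod 5}
    (hf : ∀ k, f k * w = w * f k) (hw : Typ Y l w) (r : ZMod 5) :
    w * D Y f r = D Y f (l * r) * w := by
  unfold D
  rw [Finset.sum_mul, Finset.mul_sum]
  refine Finset.sum_congr rfl fun k _ => ?_
  rw [← mul_assoc, hw, mul_assoc, ← hf, ← mul_assoc]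
  congr 3
  ring

theorem Typ.sum {Y : ZMod 5 → R} {l : ZMod 5} {ι : Type*} (s : Finset ι) (f : ι → R)
    (hf : ∀ i ∈ s, Typ Y l (f i)) : Typ Y l (∑ i ∈ s, f i) := by
  intro k
  rw [Finset.sum_mul, Finset.mul_sum]
  exact Finset.sum_congr rfl fun i hi => hf i hi k

theorem collect {Y : ZMod 5 → R} (n : ZMod 5 → ZMod 5 → ZMod 5) (F : ZMod 5 → ZMod 5 → R)
    (j : ZMod 5) :
    ∑ p, ∑ q, Y (n p q * j) * F p q =
      ∑ s, Y (s * j) * ∑ p, ∑ q, (if n p q = s then F p q else 0) := by
  simp only [Finset.mul_sum, mul_ite, mul_zero]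
  rw [Finset.sum_comm' (s := Finset.univ) (t := fun _ => Finset.univ) (t' := Finset.univ)
    (s' := fun _ => Finset.univ) (by simp)]
  conv_rhs =>
    rw [Finset.sum_comm' (s := Finset.univ) (t := fun _ => Finset.univ) (t' := Finset.univ)
      (s' := fun _ => Finset.univ) (by simp)]
  rw [Finset.sum_comm]
  refine Finset.sum_congr rfl fun p _ => ?_
  rw [Finset.sum_comm]
  refine Finset.sum_congr rfl fun q _ => ?_
  simp

/-- the part of index `s` and type `L` of the relations -/
def w (c c' a b e : ZMod 5 → R) (s L : ZMod 5) : R :=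
  (∑ p, ∑ q, if p * (1 + q) = s ∧ p * q = L then c p * c q else 0) +
  (∑ p, ∑ q, if -1 * (1 + p) = s ∧ p * q = L then c' p * c' q else 0) +
  (∑ r, if r + L = s then a r * c L else 0) +
  (∑ r, if r - 1 = s then b r * c' L else 0) + (if L = 1 then e s else 0)

theorem w_typ {Y : ZMod 5 → R} {c c' a b e : ZMod 5 → R}
    (hc : ∀ l, Typ Y l (c l)) (hc' : ∀ l, Typ Y l (c' l)) (ha : ∀ r, Typ Y 1 (a r))
    (hb : ∀ r, Typ Y 1 (b r)) (he : ∀ r, Typ Y 1 (e r)) (s L : ZMod 5) :
    Typ Y L (w c c' a b e s L) := by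
  unfold w
  refine Typ.add (Typ.add (Typ.add (Typ.add ?_ ?_) ?_) ?_) ?_
  · refine Typ.sum _ _ fun p _ => Typ.sum _ _ fun q _ => ?_
    split_ifs with hh
    · exact (hc p).mul (hc q) hh.2
    · exact Typ.zero
  · refine Typ.sum _ _ fun p _ => Typ.sum _ _ fun q _ => ?_
    split_ifs with hh
    · exact (hc' p).mul (hc' q) hh.2
    · exact Typ.zero
  · refine Typ.sum _ _ fun r _ => ?_
    split_ifs with hh
    · exact (ha r).mul (hc L) (one_mul _)
    · exact Typ.zero
  · refine Typ.sum _ _ fun r _ => ?_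
    split_ifs with hh
    · exact (hb r).mul (hc' L) (one_mul _)
    · exact Typ.zero
  · split_ifs with hh
    · subst hh; exact he s
    · exact Typ.zero

theorem w_sum (c c' a b e : ZMod 5 → R) (s : ZMod 5) :
    ∑ L, w c c' a b e s L =
      (∑ p, ∑ q, if p * (1 + q) = s then c p * c q else 0) +
      (∑ p, ∑ q, if -1 * (1 + p) = s then c' p * c' q else 0) +
      (∑ r, ∑ l, if r + l = s then a r * c l else 0) +
      (∑ r, ∑ l, if r - 1 = s then b r * c' l else 0) + e s := by
  unfold w
  simp only [Finset.sum_add_distrib]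
  congr 1
  · congr 1
    · congr 1
      · congr 1
        · rw [Finset.sum_comm]
          refine Finset.sum_congr rfl fun p _ => ?_
          rw [Finset.sum_comm]
          refine Finset.sum_congr rfl fun q _ => ?_
          by_cases hh : p * (1 + q) = s <;> simp [hh]
        · rw [Finset.sum_comm]
          refine Finset.sum_congr rfl fun p _ => ?_
          rw [Finset.sum_comm]
          refine Finset.sum_congr rfl fun q _ => ?_
          by_cases hh : -1 * (1 + p) = s <;> simp only [hh, true_and, false_and, if_false] <;> simp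
      · rw [Finset.sum_comm]
    · rw [Finset.sum_comm]
  · simp

theorem five_add (Y : ZMod 5 → R) (S1 S2 S3 S4 S5 : ZMod 5 → R) (j : ZMod 5) :
    ∑ s, Y (s * j) * (S1 s + S2 s + S3 s + S4 s + S5 s) =
      ∑ s, Y (s * j) * S1 s + ∑ s, Y (s * j) * S2 s + ∑ s, Y (s * j) * S3 s +
      ∑ s, Y (s * j) * S4 s + ∑ s, Y (s * j) * S5 s := by
  simp only [mul_add, Finset.sum_add_distrib]

theorem rel {Y : ZMod 5 → R} (h : Five Y) {c c' a b e : ZMod 5 → R}
    (hc : ∀ l, Typ Y l (c l)) (hc' : ∀ l, Typ Y l (c' l)) (ha : ∀ r, Typ Y 1 (a r))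
    (hb : ∀ r, Typ Y 1 (b r)) (he : ∀ r, Typ Y 1 (e r))
    (H : ∀ j, (∑ l, c l) * Y j * ((∑ l, c l) * Y j) +
      Y (-j) * (∑ l, c' l) * (Y (-j) * ∑ l, c' l) +
      (∑ r, Y (r * j) * a r) * ((∑ l, c l) * Y j) +
      (∑ r, Y (r * j) * b r) * (Y (-j) * ∑ l, c' l) +
      (∑ r, Y (r * j) * e r) = 0) (s L : ZMod 5) : w c c' a b e s L = 0 := by
  have key : ∀ s, ∑ L, w c c' a b e s L = 0 := by
    apply dft h
    intro j
    simp only [w_sum]
    refine (five_add Y _ _ _ _ _ j).trans ?_
    rw [← collect (fun p q => p * (1 + q)) (fun p q => c p * c q) j,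
      ← collect (fun p q => -1 * (1 + p)) (fun p q => c' p * c' q) j,
      ← collect (fun r l => r + l) (fun r l => a r * c l) j,
      ← collect (fun r l => r - 1) (fun r l => b r * c' l) j, ← H j]
    congr 1
    congr 1
    · congr 1
      · congr 1
        · simp only [Finset.sum_mul, Finset.mul_sum]
          rw [Finset.sum_comm]
          refine Finset.sum_congr rfl fun p _ => Finset.sum_congr rfl fun q _ => ?_
          exact (mulT h (hc _) (hc _) rfl j).symm
        · simp only [Finset.sum_mul, Finset.mul_sum]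
          rw [Finset.sum_comm]
          refine Finset.sum_congr rfl fun p _ => Finset.sum_congr rfl fun q _ => ?_
          exact (mulU h (hc' _) (hc' _) rfl j).symm
      · simp only [Finset.sum_mul, Finset.mul_sum]
        rw [Finset.sum_comm]
        refine Finset.sum_congr rfl fun p _ => Finset.sum_congr rfl fun q _ => ?_
        exact (mulE h (ha _) (hc _) rfl j).symm
    · simp only [Finset.sum_mul, Finset.mul_sum]
      rw [Finset.sum_comm]
      refine Finset.sum_congr rfl fun p _ => Finset.sum_congr rfl fun q _ => ?_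
      exact (mulF h (hb _) rfl j).symm
  exact sep h _ (w_typ hc hc' ha hb he s) (key s) L

end H10.FA
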