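import Mathlib
import Pool.Agent.H10.FA.Types

/-!
# The relations which are used, in concrete form
-/

set_option autoImplicit false

namespace H10.FA

open Q6.FreeAct

variable {R : Type*} [Ring R]

/-- products by types -/
def v (c c' : ZMod 5 → R) (L : ZMod 5) : R :=
  (∑ p, ∑ q, if p * q = L then c p * c' q else 0) + (if L = 1 then -25 else 0)

theorem prodrel {Y : ZMod 5 → R} (h : Five Y) {c c' : ZMod 5 → R}
    (hc : ∀ l, Typ Y l (c l)) (hc' : ∀ l, Typ Y l (c' l))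
    (H : (∑ l, c l) * (∑ l, c' l) = 25) (L : ZMod 5) : v c c' L = 0 := by
  refine sep h (v c c') ?_ ?_ L
  · intro L
    unfold v
    refine Typ.add ?_ ?_
    · refine Typ.sum _ _ fun p _ => Typ.sum _ _ fun q _ => ?_
      split_ifs with hh
      · exact (hc p).mul (hc' q) hh
      · exact Typ.zero
    · split_ifs with hh
      · subst hh
        intro k
        rw [one_mul, neg_mul, mul_neg, Typ.num k, one_mul]
      · exact Typ.zero
  · unfold v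
    rw [Finset.sum_add_distrib]
    have : ∑ L, ∑ p, ∑ q, (if p * q = L then c p * c' q else 0) = 25 := by
      rw [← H, Finset.sum_mul_sum, Finset.sum_comm]
      refine Finset.sum_congr rfl fun p _ => ?_
      rw [Finset.sum_comm]
      refine Finset.sum_congr rfl fun q _ => ?_
      simp
    rw [this]
    simp

/-- evaluation of the relations -/
theorem w_eval (c c' a b e : ZMod 5 → R) (c0 : c 0 = 0) (c0' : c' 0 = 0) :
    w c c' a b e 4 3 = c 1 * c 3 + a 1 * c 3 + b 0 * c' 3 ∧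
    w c c' a b e 4 2 = c 2 * c 1 + a 2 * c 2 + b 0 * c' 2 ∧
    w c c' a b e 2 2 = c' 2 * c' 1 + a 0 * c 2 + b 3 * c' 2 ∧
    w c c' a b e 3 3 = c' 1 * c' 3 + a 0 * c 3 + b 4 * c' 3 ∧
    w c c' a b e 3 2 = c 1 * c 2 + c' 1 * c' 2 + a 1 * c 2 + b 4 * c' 2 ∧
    w c c' a b e 1 3 = c 3 * c 1 + c' 3 * c' 1 + a 3 * c 3 + b 2 * c' 3 ∧
    w c c' a b e 4 4 = a 0 * c 4 + b 0 * c' 4 ∧
    w c c' a b e 0 4 = c 1 * c 4 + c' 4 * c' 1 + a 1 * c 4 + b 1 * c' 4 ∧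
    w c c' a b e 3 4 = c 4 * c 1 + c' 1 * c' 4 + a 4 * c 4 + b 4 * c' 4 := by
  refine ⟨?_, ?_, ?_, ?_, ?_, ?_, ?_, ?_, ?_⟩ <;>
  · unfold w
    simp only [sum5]
    simp (decide := true) only [if_true, if_false, c0, c0', zero_mul, mul_zero, add_zero, zero_add]

theorem w_eval' (c c' a b e : ZMod 5 → R) (c0 : c 0 = 0) (c0' : c' 0 = 0) :
    w c c' a b e 1 1 = c' 3 * c' 2 + a 0 * c 1 + b 2 * c' 1 + e 1 ∧
    w c c' a b e 4 1 = c 3 * c 2 + a 3 * c 1 + b 0 * c' 1 + e 4 ∧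
    w c c' a b e 2 1 = c 1 * c 1 + c' 2 * c' 3 + a 1 * c 1 + b 3 * c' 1 + e 2 ∧
    w c c' a b e 3 1 = c 2 * c 3 + c' 1 * c' 1 + a 2 * c 1 + b 4 * c' 1 + e 3 ∧
    w c c' a b e 0 1 = c 4 * c 4 + c' 4 * c' 4 + a 4 * c 1 + b 1 * c' 1 + e 0 ∧
    w c c' a b e 0 2 = c 3 * c 4 + c' 4 * c' 3 + a 3 * c 2 + b 1 * c' 2 := by
  refine ⟨?_, ?_, ?_, ?_, ?_, ?_⟩ <;>
  · unfold w
    simp only [sum5]
    simp (decide := true) only [if_true, if_false, c0, c0', zero_mul, mul_zero, add_zero, zero_add]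

theorem v_eval (c c' : ZMod 5 → R) (c0 : c 0 = 0) (c0' : c' 0 = 0) :
    v c c' 1 = c 1 * c' 1 + c 4 * c' 4 + c 2 * c' 3 + c 3 * c' 2 + -25 ∧
    v c c' 2 = c 1 * c' 2 + c 2 * c' 1 + c 4 * c' 3 + c 3 * c' 4 := by
  refine ⟨?_, ?_⟩ <;>
  · unfold v
    simp only [sum5]
    simp (decide := true) only [if_true, if_false, c0, c0', zero_mul, mul_zero, add_zero, zero_add]
    abel

end H10.FA
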