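import Mathlib

/-!
# Consequences of the relations between the types
-/

set_option autoImplicit false

namespace H10.FA

variable {R : Type*} [Ring R]

/-- the relations which are used -/
structure Sys (a b e : ZMod 5 → R) (X U x2 x3 x4 u2 u3 u4 : R) : Prop where
  r43 : X * x3 + a 1 * x3 + b 0 * u3 = 0
  r42 : x2 * X + a 2 * x2 + b 0 * u2 = 0
  r22 : u2 * U + a 0 * x2 + b 3 * u2 = 0
  r33 : U * u3 + a 0 * x3 + b 4 * u3 = 0
  r32 : X * x2 + U * u2 + a 1 * x2 + b 4 * u2 = 0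
  r13 : x3 * X + u3 * U + a 3 * x3 + b 2 * u3 = 0
  r44 : a 0 * x4 + b 0 * u4 = 0
  r04 : X * x4 + u4 * U + a 1 * x4 + b 1 * u4 = 0
  r34 : x4 * X + U * u4 + a 4 * x4 + b 4 * u4 = 0
  r11 : u3 * u2 + a 0 * X + b 2 * U + e 1 = 0
  r41 : x3 * x2 + a 3 * X + b 0 * U + e 4 = 0
  r21 : X * X + u2 * u3 + a 1 * X + b 3 * U + e 2 = 0
  r31 : x2 * x3 + U * U + a 2 * X + b 4 * U + e 3 = 0
  r01 : x4 * x4 + u4 * u4 + a 4 * X + b 1 * U + e 0 = 0
  r02 : x3 * x4 + u4 * u3 + a 3 * x2 + b 1 * u2 = 0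
  xu1 : X * U + x4 * u4 + x2 * u3 + x3 * u2 = 25
  xu2 : X * u2 + x2 * U + x4 * u3 + x3 * u4 = 0
  m1 : x2 * a 1 = a 2 * x2
  m2 : u2 * b 4 = b 3 * u2
  m3 : x3 * a 1 = a 3 * x3
  m4 : u3 * b 4 = b 2 * u3
  m5 : u4 * b 4 = b 1 * u4
  m6 : x4 * a 1 = a 4 * x4
  m7 : x2 * b 4 = b 3 * x2
  ca : ∀ r : R, a 0 * r = r * a 0
  cb : ∀ r : R, b 0 * r = r * b 0
  aX : ∀ r, a r * X = X * a r
  aU : ∀ r, a r * U = U * a r
  bX : ∀ r, b r * X = X * b r
  bU : ∀ r, b r * U = U * b r
  eX : ∀ r, e r * X = X * e r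
  eU : ∀ r, e r * U = U * e r
  aa : ∀ r s, a r * a s = a s * a r
  ab : ∀ r s, a r * b s = b s * a r
  bb : ∀ r s, b r * b s = b s * b r
  ae : ∀ r s, a r * e s = e s * a r
  be : ∀ r s, b r * e s = e s * b r
  kb : ∀ r : R, b 0 * r = 0 → r = 0

namespace Sys

variable {a b e : ZMod 5 → R} {X U x2 x3 x4 u2 u3 u4 : R}
  (S : Sys a b e X U x2 x3 x4 u2 u3 u4)

include S

theorem f1 : (X + a 1) * x3 = -(b 0 * u3) := by
  linear_combination (norm := noncomm_ring) S.r43

theorem f2 : x2 * (X + a 1) = -(b 0 * u2) := by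
  linear_combination (norm := noncomm_ring) S.r42 + S.m1

theorem f3 : u2 * (U + b 4) = -(a 0 * x2) := by
  linear_combination (norm := noncomm_ring) S.r22 + S.m2

theorem f4 : (U + b 4) * u3 = -(a 0 * x3) := by
  linear_combination (norm := noncomm_ring) S.r33

theorem f5 : (X + a 1) * x2 = -((U + b 4) * u2) := by
  linear_combination (norm := noncomm_ring) S.r32

theorem f6 : x3 * (X + a 1) = -(u3 * (U + b 4)) := by
  linear_combination (norm := noncomm_ring) S.r13 + S.m3 + S.m4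

theorem f7 : (X + a 1) * x4 = -(u4 * (U + b 4)) := by
  linear_combination (norm := noncomm_ring) S.r04 + S.m5

theorem f8 : x4 * (X + a 1) = -((U + b 4) * u4) := by
  linear_combination (norm := noncomm_ring) S.r34 + S.m6

/-- `x2 u3 = u2 x3` -/
theorem hW : u2 * x3 = x2 * u3 := by
  have h1 : b 0 * (u2 * x3 - x2 * u3) = 0 := by
    have e1 : x2 * (X + a 1) * x3 = -(b 0 * u2) * x3 := by rw [S.f2]
    have e2 : x2 * ((X + a 1) * x3) = x2 * -(b 0 * u3) := by rw [S.f1]
    have e3 := S.cb x2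
    linear_combination (norm := noncomm_ring) e1 - e2 - e3 * u3
  have := S.kb _ h1
  exact sub_eq_zero.1 this

/-- `x4 u4 = u4 x4` -/
theorem hT : u4 * x4 = x4 * u4 := by
  have h1 : b 0 * (u4 * x4 - x4 * u4) = 0 := by
    have e1 := S.cb x4
    have e2 := S.ca x4
    linear_combination (norm := noncomm_ring) S.r44 * x4 - x4 * S.r44 - e1 * u4 - e2 * x4
  have := S.kb _ h1
  exact sub_eq_zero.1 this

theorem T_A : (X + a 1) * (x4 * u4) = x4 * u4 * (X + a 1) := by
  have e1 := S.f7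
  have e2 := S.f8
  have e3 := S.hT
  linear_combination (norm := noncomm_ring) e1 * u4 - u4 * e2 + e3 * (X + a 1)

theorem T_A' : (U + b 4) * (x4 * u4) = x4 * u4 * (U + b 4) := by
  have e1 := S.f7
  have e2 := S.f8
  have e3 := S.hT
  linear_combination (norm := noncomm_ring) e2 * x4 - x4 * e1 - (U + b 4) * e3

/-- `(a0 ^ 2 + b0 ^ 2) T = a0 b0 L` -/
theorem o4 : (a 0 * a 0 + b 0 * b 0) * (x4 * u4) =
    a 0 * b 0 * (a 4 * X + b 1 * U + e 0) := by
  have e1 : a 0 * (x4 * u4) = -(b 0 * (u4 * u4)) := by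
    linear_combination (norm := noncomm_ring) S.r44 * u4
  have e2 : b 0 * (x4 * u4) = -(a 0 * (x4 * x4)) := by
    linear_combination (norm := noncomm_ring) x4 * S.r44 + S.cb x4 * u4 + S.ca x4 * x4
  have e3 := S.ab 0 0
  linear_combination (norm := noncomm_ring) a 0 * e1 + b 0 * e2 - a 0 * b 0 * S.r01 +
    e3 * (x4 * x4)

/-- `a0 A P = b0 Q A'` -/
theorem AP : (X + a 1) * (a 3 * X + b 0 * U + e 4) = b 0 * (u3 * x2) := by
  linear_combination (norm := noncomm_ring) (X + a 1) * S.r41 - S.f1 * x2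

theorem PA : (a 3 * X + b 0 * U + e 4) * (X + a 1) = b 0 * (x3 * u2) := by
  linear_combination (norm := noncomm_ring) S.r41 * (X + a 1) - x3 * S.f2 - S.cb x3 * u2

theorem QA' : (a 0 * X + b 2 * U + e 1) * (U + b 4) = a 0 * (u3 * x2) := by
  linear_combination (norm := noncomm_ring) S.r11 * (U + b 4) - u3 * S.f3 - S.ca u3 * x2

theorem o3 : a 0 * ((X + a 1) * (a 3 * X + b 0 * U + e 4)) =
    b 0 * ((a 0 * X + b 2 * U + e 1) * (U + b 4)) := by
  rw [S.AP, S.QA']
  linear_combination (norm := noncomm_ring) S.ab 0 0 * (u3 * x2)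

theorem o1 : ((U + b 4) * (X + a 1) - a 0 * b 0) * (a 3 * X + b 0 * U + e 4) = 0 := by
  have e1 : (U + b 4) * ((X + a 1) * x3) = a 0 * b 0 * x3 := by
    rw [S.f1]
    linear_combination (norm := noncomm_ring) (-b 0) * S.f4 + S.cb (U + b 4) * u3 - S.ab 0 0 * x3
  linear_combination (norm := noncomm_ring) ((U + b 4) * (X + a 1) - a 0 * b 0) * S.r41 - e1 * x2

theorem o2 : ((X + a 1) * (U + b 4) - a 0 * b 0) * (a 0 * X + b 2 * U + e 1) = 0 := by
  have e1 : (X + a 1) * ((U + b 4) * u3) = a 0 * b 0 * u3 := by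
    rw [S.f4]
    linear_combination (norm := noncomm_ring) (-a 0) * S.f1 + S.ca (X + a 1) * x3
  linear_combination (norm := noncomm_ring) ((X + a 1) * (U + b 4) - a 0 * b 0) * S.r11 - e1 * u2

/-- `b0 W` -/
theorem hbW : b 0 * (x2 * u3) = b 0 * (25 - X * U - x4 * u4) -
    (a 3 * X + b 0 * U + e 4) * (X + a 1) := by
  rw [S.PA]
  linear_combination (norm := noncomm_ring) b 0 * S.xu1

theorem o7 : b 0 * ((X + a 1) * (-((U + b 4) * U + a 2 * X + e 3))) =
    -((U + b 4) * (b 0 * (25 - X * U - x4 * u4) - (a 3 * X + b 0 * U + e 4) * (X + a 1))) := by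
  rw [← S.hbW]
  have e1 : -((U + b 4) * U + a 2 * X + e 3) = x2 * x3 := by
    linear_combination (norm := noncomm_ring) -S.r31
  rw [e1]
  have e2 := S.f5
  linear_combination (norm := noncomm_ring) b 0 * (e2 * x3) - b 0 * ((U + b 4) * S.hW) -
    S.cb (U + b 4) * (x2 * u3)

theorem o8 : b 0 * ((U + b 4) * (-((X + a 1) * X + b 3 * U + e 2))) =
    -((X + a 1) * (b 0 * (25 - X * U - x4 * u4) - (a 3 * X + b 0 * U + e 4) * (X + a 1))) := by
  rw [← S.hbW]
  have e1 : -((X + a 1) * X + b 3 * U + e 2) = u2 * u3 := by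
    linear_combination (norm := noncomm_ring) -S.r21
  rw [e1]
  have e2 := S.f5
  linear_combination (norm := noncomm_ring) b 0 * (e2 * u3) -
    S.cb (X + a 1) * (x2 * u3)

theorem o10 : a 0 * b 0 * a 4 * ((U + b 4) * (X + a 1) - (X + a 1) * (U + b 4)) = 0 := by
  have h1 := S.o4
  have h2 := S.T_A'
  have e1 : (U + b 4) * (a 4 * X + b 1 * U + e 0) - (a 4 * X + b 1 * U + e 0) * (U + b 4) =
      a 4 * ((U + b 4) * (X + a 1) - (X + a 1) * (U + b 4)) := by
    have c1 := S.aU 4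
    have c2 := S.bU 1
    have c3 := S.bU 4
    have c4 := S.eU 0
    have c5 := S.ab 4 4
    have c6 := S.bb 4 1
    have c7 := S.be 4 0
    have c8 := S.bX 4
    have c9 := S.aU 1
    have c10 := S.ab 1 4
    linear_combination (norm := noncomm_ring) -(c1 * X) - c2 * U + b 1 * c3 - c4 - c5 * X +
      c6 * U + c7 - a 4 * c8 + a 4 * c8 + a 4 * c9 + a 4 * c10
  have e2 : a 0 * b 0 * ((U + b 4) * (a 4 * X + b 1 * U + e 0) -
      (a 4 * X + b 1 * U + e 0) * (U + b 4)) = 0 := by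
    have c1 := S.ca (U + b 4)
    have c2 := S.cb (U + b 4)
    have hc : (a 0 * a 0 + b 0 * b 0) * (U + b 4) = (U + b 4) * (a 0 * a 0 + b 0 * b 0) := by
      linear_combination (norm := noncomm_ring) a 0 * c1 + c1 * a 0 + b 0 * c2 + c2 * b 0
    have hd : a 0 * b 0 * (U + b 4) = (U + b 4) * (a 0 * b 0) := by
      linear_combination (norm := noncomm_ring) a 0 * c2 + c1 * b 0
    linear_combination (norm := noncomm_ring) h1 * (U + b 4) - (U + b 4) * h1 +
      (a 0 * a 0 + b 0 * b 0) * h2 - hc * (x4 * u4) + hd * (a 4 * X + b 1 * U + e 0)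
  rw [e1] at e2
  rw [mul_assoc (a 0 * b 0)]
  exact e2

theorem o11 : a 0 * b 0 * b 1 * ((X + a 1) * (U + b 4) - (U + b 4) * (X + a 1)) = 0 := by
  have h1 := S.o4
  have h2 := S.T_A
  have e1 : (X + a 1) * (a 4 * X + b 1 * U + e 0) - (a 4 * X + b 1 * U + e 0) * (X + a 1) =
      b 1 * ((X + a 1) * (U + b 4) - (U + b 4) * (X + a 1)) := by
    have c1 := S.aX 4
    have c2 := S.bX 1
    have c3 := S.aX 1
    have c4 := S.eX 0
    have c5 := S.aa 1 4
    have c6 := S.ab 1 1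
    have c7 := S.ae 1 0
    have c8 := S.bX 4
    have c9 := S.aU 1
    have c10 := S.ab 1 4
    linear_combination (norm := noncomm_ring) -(c1 * X) - c2 * U - c4 + c5 * X + a 4 * c3 +
      c6 * U + c7 + b 1 * c8 - b 1 * c10
  have e2 : a 0 * b 0 * ((X + a 1) * (a 4 * X + b 1 * U + e 0) -
      (a 4 * X + b 1 * U + e 0) * (X + a 1)) = 0 := by
    have c1 := S.ca (X + a 1)
    have c2 := S.cb (X + a 1)
    have hc : (a 0 * a 0 + b 0 * b 0) * (X + a 1) = (X + a 1) * (a 0 * a 0 + b 0 * b 0) := by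
      linear_combination (norm := noncomm_ring) a 0 * c1 + c1 * a 0 + b 0 * c2 + c2 * b 0
    have hd : a 0 * b 0 * (X + a 1) = (X + a 1) * (a 0 * b 0) := by
      linear_combination (norm := noncomm_ring) a 0 * c2 + c1 * b 0
    linear_combination (norm := noncomm_ring) h1 * (X + a 1) - (X + a 1) * h1 +
      (a 0 * a 0 + b 0 * b 0) * h2 - hc * (x4 * u4) + hd * (a 4 * X + b 1 * U + e 0)
  rw [e1] at e2
  rw [mul_assoc (a 0 * b 0)]
  exact e2

/-- the additional relation if `a0 = b0` -/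
theorem o9p (hab : a 0 = b 0) :
    b 0 * (X * (-((X + a 1) * X + b 3 * U + e 2))) -
      b 0 * (a 0 * (-((U + b 4) * U + a 2 * X + e 3))) +
      (a 3 - b 3) * (b 0 * (25 - X * U - x4 * u4) - (a 3 * X + b 0 * U + e 4) * (X + a 1)) +
      b 0 * (b 1 * (-((X + a 1) * X + b 3 * U + e 2))) = 0 := by
  rw [← S.hbW]
  have e1 : -((X + a 1) * X + b 3 * U + e 2) = u2 * u3 := by
    linear_combination (norm := noncomm_ring) -S.r21
  have e2 : -((U + b 4) * U + a 2 * X + e 3) = x2 * x3 := by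
    linear_combination (norm := noncomm_ring) -S.r31
  rw [e1, e2]
  have h4 : u4 = -x4 := by
    have : b 0 * (x4 + u4) = 0 := by
      have := S.r44
      rw [hab] at this
      linear_combination (norm := noncomm_ring) this
    have := S.kb _ this
    exact (neg_eq_of_add_eq_zero_right this).symm
  have hj : X * u2 + x2 * U + a 3 * x2 + b 1 * u2 = 0 := by
    have g1 := S.xu2
    have g2 := S.r02
    rw [h4] at g1 g2
    linear_combination (norm := noncomm_ring) g1 + g2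
  have hj3 : X * (u2 * u3) + x2 * (U * u3) + a 3 * (x2 * u3) + b 1 * (u2 * u3) = 0 := by
    linear_combination (norm := noncomm_ring) hj * u3
  have hu3 : x2 * (U * u3) = -(a 0 * (x2 * x3)) - b 3 * (x2 * u3) := by
    linear_combination (norm := noncomm_ring) x2 * S.r33 + S.ca x2 * x3 - S.m7 * u3
  rw [hu3] at hj3
  have c3 := S.cb (a 3)
  have c3' := S.cb (b 3)
  linear_combination (norm := noncomm_ring) b 0 * hj3 - c3 * (x2 * u3) + c3' * (x2 * u3)

/-- the additional relation if `a0 = - b0` -/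
theorem o9m (hab : a 0 = -b 0) :
    b 0 * (X * (-((X + a 1) * X + b 3 * U + e 2))) -
      b 0 * (a 0 * (-((U + b 4) * U + a 2 * X + e 3))) +
      (-a 3 - b 3) * (b 0 * (25 - X * U - x4 * u4) - (a 3 * X + b 0 * U + e 4) * (X + a 1)) -
      b 0 * (b 1 * (-((X + a 1) * X + b 3 * U + e 2))) = 0 := by
  rw [← S.hbW]
  have e1 : -((X + a 1) * X + b 3 * U + e 2) = u2 * u3 := by
    linear_combination (norm := noncomm_ring) -S.r21
  have e2 : -((U + b 4) * U + a 2 * X + e 3) = x2 * x3 := by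
    linear_combination (norm := noncomm_ring) -S.r31
  rw [e1, e2]
  have h4 : u4 = x4 := by
    have : b 0 * (u4 - x4) = 0 := by
      have := S.r44
      rw [hab] at this
      linear_combination (norm := noncomm_ring) this
    have := S.kb _ this
    exact sub_eq_zero.1 this
  have hj : X * u2 + x2 * U - a 3 * x2 - b 1 * u2 = 0 := by
    have g1 := S.xu2
    have g2 := S.r02
    rw [h4] at g1 g2
    linear_combination (norm := noncomm_ring) g1 - g2
  have hj3 : X * (u2 * u3) + x2 * (U * u3) - a 3 * (x2 * u3) - b 1 * (u2 * u3) = 0 := by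
    linear_combination (norm := noncomm_ring) hj * u3
  have hu3 : x2 * (U * u3) = -(a 0 * (x2 * x3)) - b 3 * (x2 * u3) := by
    linear_combination (norm := noncomm_ring) x2 * S.r33 + S.ca x2 * x3 - S.m7 * u3
  rw [hu3] at hj3
  have c3 := S.cb (a 3)
  have c3' := S.cb (b 3)
  linear_combination (norm := noncomm_ring) b 0 * hj3 + c3 * (x2 * u3) + c3' * (x2 * u3)

end Sys

end H10.FA
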