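import Mathlib
import Pool.Agent.H10.FA.Types
import Pool.Agent.H10.FA.Conc
import Pool.Agent.H10.FA.Der
import Pool.Agent.H10.FA.Check

/-!
# From the certificates to the collapse of the ring
-/

set_option autoImplicit false

universe u

namespace H10.FA

open Q6.FreeAct

theorem transfer {R : Type u} [Ring R] (s : Set R) (hs : ∀ x ∈ s, ∀ y ∈ s, x * y = y * x) :
    ∃ (S : Type u) (_ : CommRing S) (f : S →+* R), Function.Injective f ∧
      ∀ x ∈ s, ∃ x' : S, f x' = x := by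
  letI : CommRing (Subring.closure s) := Subring.closureCommRingOfComm hs
  refine ⟨Subring.closure s, inferInstance, (Subring.closure s).subtype,
    Subtype.coe_injective, ?_⟩
  intro x hx
  exact ⟨⟨x, Subring.subset_closure hx⟩, rfl⟩

theorem map_evalK {S R : Type*} [Ring S] [Ring R] (f : S →+* R) (y i : S) (k : K) :
    f (evalK y i k) = evalK (f y) (f i) k := by
  simp only [evalK, map_add, map_mul, map_intCast]

theorem evalK_mul_R {R : Type u} [Ring R] (y i : R) (hyi : y * i = i * y)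
    (hy : 1 + y + y * y + y * y * y + y * y * y * y = 0) (hi : i * i = -1) (p q : K) :
    evalK y i (p.mul q) = evalK y i p * evalK y i q := by
  obtain ⟨S, _, f, hf, hs⟩ := transfer ({y, i} : Set R) (by
    rintro a (rfl | rfl) b (rfl | rfl)
    · rfl
    · exact hyi
    · exact hyi.symm
    · rfl)
  obtain ⟨y', rfl⟩ := hs y (by simp)
  obtain ⟨i', rfl⟩ := hs i (by simp)
  have h := (kSound y' i' (hf (by simpa using hy)) (hf (by simpa using hi))).mul p q
  have h' := congrArg f h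
  rw [map_mul, map_evalK, map_evalK, map_evalK] at h'
  exact h'

section

variable {R : Type u} [Ring R]

theorem cmp_zero {Y : ZMod 5 → R} (h : Five Y) (x : R) : Q6.FreeAct.cmp Y 0 x = 0 := by
  unfold Q6.FreeAct.cmp
  simp only [neg_zero, zero_mul, h.zero, one_mul]
  rw [← Finset.mul_sum, sum5, h.sum, mul_zero]

theorem cmp_total {Y : ZMod 5 → R} (h : Five Y) (x : R) : ∑ l, Q6.FreeAct.cmp Y l x = 5 * x := by
  rw [sum5, cmp_zero h, ← cmp_sum h x]
  abel

theorem gauss_eval {I : R} (hI : I * I = -1) (m : ℕ) :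
    (((gauss m).1 : ℤ) : R) + (((gauss m).2 : ℤ) : R) * I = I ^ m := by
  have h4 : I ^ 4 = 1 := by
    rw [show 4 = 2 + 2 from rfl, pow_add, pow_two, hI]; noncomm_ring
  have hm : I ^ m = I ^ (m % 4) := by
    conv_lhs => rw [← Nat.div_add_mod m 4, pow_add, pow_mul, h4, one_pow, one_mul]
  rw [hm]
  have hlt : m % 4 < 4 := Nat.mod_lt _ (by norm_num)
  unfold gauss
  interval_cases hh : m % 4
  · simp
  · simp
  · simp [pow_two, hI]
  · simp [pow_succ, hI]

theorem Y_facts {Y : ZMod 5 → R} (h : Five Y) :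
    Y 2 = Y 1 * Y 1 ∧ Y 3 = Y 1 * Y 1 * Y 1 ∧ Y 4 = Y 1 * Y 1 * Y 1 * Y 1 ∧
    1 + Y 1 + Y 1 * Y 1 + Y 1 * Y 1 * Y 1 + Y 1 * Y 1 * Y 1 * Y 1 = 0 := by
  have h2 : Y 2 = Y 1 * Y 1 := by rw [← h.add]; rfl
  have h3 : Y 3 = Y 1 * Y 1 * Y 1 := by rw [← h.add, ← h.add]; rfl
  have h4 : Y 4 = Y 1 * Y 1 * Y 1 * Y 1 := by rw [← h.add, ← h.add, ← h.add]; rfl
  refine ⟨h2, h3, h4, ?_⟩
  have := h.sum
  rw [h.zero, h4, h3, h2] at this
  exact this

theorem mono_eval {Y : ZMod 5 → R} (h : Five Y) {I : R} (hI : I * I = -1)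
    (hc : ∀ r : R, I * r = r * I) (n m : ℕ) :
    evalK (Y 1) I (mono n m) = Y (n : ZMod 5) * I ^ m := by
  have hg := gauss_eval hI m
  obtain ⟨h2, h3, h4, hs⟩ := Y_facts h
  have hn : (n : ZMod 5) = ((n % 5 : ℕ) : ZMod 5) := by simp
  rw [hn]
  have hcm : ∀ r : R, r * I ^ m = I ^ m * r := fun r =>
    ((show Commute I r from hc r).pow_left m).eq.symm
  rw [hcm, ← hg]
  have hlt : n % 5 < 5 := Nat.mod_lt _ (by norm_num)
  unfold mono
  generalize (gauss m).1 = p
  generalize (gauss m).2 = q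
  interval_cases hh : n % 5
  · simp [evalK, h.zero]
  · simp [evalK]
  · rw [show ((2 : ℕ) : ZMod 5) = 2 from rfl, h2]; simp [evalK]
  · rw [show ((3 : ℕ) : ZMod 5) = 3 from rfl, h3]; simp [evalK]
  · rw [show ((4 : ℕ) : ZMod 5) = 4 from rfl, h4]
    have e : Y 1 * Y 1 * Y 1 * Y 1 = -(1 + Y 1 + Y 1 * Y 1 + Y 1 * Y 1 * Y 1) := by
      rw [eq_neg_iff_add_eq_zero, add_comm, hs]
    rw [e]
    simp only [evalK]
    push_cast
    noncomm_ring

theorem coef_eval {Y : ZMod 5 → R} (h : Five Y) {I : R} (hI : I * I = -1)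
    (hc : ∀ r : R, I * r = r * I) (F : ℕ → ℕ) (r : ℕ) :
    evalK (Y 1) I (coefK F r) = D Y (fun k => I ^ F k.val) (r : ZMod 5) := by
  unfold coefK D
  rw [sum5]
  simp only [evalK_add', mono_eval h hI hc]
  have e5 : ((5 * r : ℕ) : ZMod 5) = -0 * r := by
    push_cast
    rw [show (5 : ZMod 5) = 0 from rfl]; ring
  have e4 : ((4 * r : ℕ) : ZMod 5) = -1 * r := by
    push_cast
    rw [show (4 : ZMod 5) = -1 from rfl]
  have e3 : ((3 * r : ℕ) : ZMod 5) = -2 * r := by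
    push_cast
    rw [show (3 : ZMod 5) = -2 from rfl]
  have e2 : ((2 * r : ℕ) : ZMod 5) = -3 * r := by
    push_cast
    rw [show (2 : ZMod 5) = -3 from rfl]
  have e1 : -4 * (r : ZMod 5) = r := by
    rw [show (-4 : ZMod 5) = 1 from rfl, one_mul]
  rw [e5, e4, e3, e2, e1]
  rfl

end

end H10.FA
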