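import Mathlib
import Pool.Agent.H10.FA.Collapse

/-!
# The collapse of the ring
-/

set_option autoImplicit false

universe u

namespace H10.FA

open Q6.FreeAct

theorem evalK_isZ {R : Type u} [Ring R] (y i : R) (k : K) (h : k.isZ = true) :
    evalK y i k = 0 := by
  simp only [K.isZ, Bool.and_eq_true, beq_iff_eq] at h
  obtain ⟨⟨⟨⟨⟨⟨⟨h0, h1⟩, h2⟩, h3⟩, h4⟩, h5⟩, h6⟩, h7⟩ := h
  simp [evalK, h0, h1, h2, h3, h4, h5, h6, h7]

theorem evalK_neg' {R : Type u} [Ring R] (y i : R) (k : K) :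
    evalK y i k.neg = -evalK y i k := by
  simp only [evalK, K.neg]
  push_cast
  noncomm_ring

/-- the numerical facts about a pattern -/
structure Cert (d : ℕ → ℕ) (s : ℤ) (c1 c2 : Fin 7 → P3) (n1 n2 : ℤ) (u v w : K)
    (den nb : ℕ) : Prop where
  chk1 : check d s c1 n1 = true
  chk2 : check d s c2 n2 = true
  hs : (c1 6 = [] ∧ c2 6 = []) ∨ (s = 1 ∧ ((aK d 0).add (bK d 0).neg).isZ = true) ∨
    (s = -1 ∧ ((aK d 0).add (bK d 0)).isZ = true)
  gcd : Int.gcd n1 n2 ∣ 10 ^ 100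
  kap : (((u.mul (((aK d 0).mul (bK d 0)).mul (aK d 4))).add
    (v.mul (((aK d 0).mul (bK d 0)).mul (bK d 1)))).add (intK (-den))).isZ = true
  hden : den ∣ 10 ^ 100
  hb : ((w.mul (bK d 0)).add (intK (-nb))).isZ = true
  hnb : nb ∣ 10 ^ 100

theorem ten_pow {R : Type u} [Ring R] (t10 : ∀ r : R, 10 * r = 0 → r = 0) (n : ℕ) (r : R)
    (h : (10 : R) ^ n * r = 0) : r = 0 := by
  induction n with
  | zero => simpa using h
  | succ n ih =>
    apply ih
    apply t10
    rw [← mul_assoc, ← pow_succ']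
    exact h

theorem dvd_zero_div {R : Type u} [Ring R] (t10 : ∀ r : R, 10 * r = 0 → r = 0) {m k : ℕ}
    (hm : m ∣ 10 ^ k) (r : R) (h : (m : R) * r = 0) : r = 0 := by
  obtain ⟨c, hc⟩ := hm
  apply ten_pow t10 k
  have : ((10 : R)) ^ k = (c : R) * (m : R) := by
    have := congrArg (Nat.cast (R := R)) hc
    push_cast at this
    rw [this]
    exact (Nat.cast_commute m (c : R)).eq
  rw [this, mul_assoc, h, mul_zero]

section

variable {R : Type u} [Ring R] {Y : ZMod 5 → R} (h : Five Y) {I x u : R}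
  (hI : I * I = -1) (hc : ∀ r : R, I * r = r * I)

include hc in
theorem Ipow_comm (n : ℕ) (r : R) : I ^ n * r = r * I ^ n :=
  ((show Commute I r from hc r).pow_left n).eq

/-- the system of relations -/
theorem mkSys (hxu : x * u = 1)
    (d : ℕ → ℕ) (hQ : ∀ j : ZMod 5, 1 + I ^ d j.val * (x * Y j) +
      I ^ (2 * d j.val) * ((x * Y j) * (x * Y j)) + I ^ (3 * d j.val) * (Y (-j) * u) +
      I ^ (2 * d j.val) * ((Y (-j) * u) * (Y (-j) * u)) = 0)
    (kb : ∀ r : R, D Y (fun k => I ^ d k.val) 0 * r = 0 → r = 0)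
    (h : Five Y) (hI : I * I = -1) (hc : ∀ r : R, I * r = r * I) :
    Sys (fun r => D Y (fun k => I ^ (3 * d k.val)) r) (fun r => D Y (fun k => I ^ d k.val) r)
      (fun r => 5 * D Y (fun k => I ^ (2 * d k.val)) r)
      (Q6.FreeAct.cmp Y 1 x) (Q6.FreeAct.cmp Y 1 u)
      (Q6.FreeAct.cmp Y 2 x) (Q6.FreeAct.cmp Y 3 x) (Q6.FreeAct.cmp Y 4 x)
      (Q6.FreeAct.cmp Y 2 u) (Q6.FreeAct.cmp Y 3 u) (Q6.FreeAct.cmp Y 4 u) := by
  have tc := fun l => cmp_typ h l x
  have tc' := fun l => cmp_typ h l u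
  have hYc : ∀ k l, Y k * Y l = Y l * Y k := fun k l => by
    rw [← h.add, ← h.add, add_comm]
  have hI4 : I ^ 4 = 1 := by
    rw [show 4 = 2 + 2 from rfl, pow_add, pow_two, hI]; noncomm_ring
  have hIc := Ipow_comm hc
  -- commutation of coefficients
  have DY : ∀ (F : ZMod 5 → ℕ) (r k : ZMod 5), D Y (fun k => I ^ F k) r * Y k =
      Y k * D Y (fun k => I ^ F k) r := fun F r k =>
    D_comm (fun l => hIc _ _) (fun l => hYc l k) r
  have tD : ∀ (F : ZMod 5 → ℕ) (r : ZMod 5), Typ Y 1 (D Y (fun k => I ^ F k) r) := fun F r =>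
    typ_one_of_comm (DY F r)
  have DX : ∀ (F : ZMod 5 → ℕ) (r : ZMod 5) (w : R), Typ Y 1 w → D Y (fun k => I ^ F k) r * w =
      w * D Y (fun k => I ^ F k) r := fun F r w hw =>
    D_comm (fun l => hIc _ _) (fun l => by rw [hw l, one_mul]) r
  have D0 : ∀ (F : ZMod 5 → ℕ) (r : R), D Y (fun k => I ^ F k) 0 * r =
      r * D Y (fun k => I ^ F k) 0 := fun F r => by
    unfold D
    rw [Finset.sum_mul, Finset.mul_sum]
    refine Finset.sum_congr rfl fun k _ => ?_
    rw [mul_zero, h.zero, one_mul, hIc]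
  have n5 : ∀ w : R, w * 5 = 5 * w := fun w => (Nat.cast_commute 5 w).eq.symm
  have te : ∀ r, Typ Y 1 (5 * D Y (fun k => I ^ (2 * d k.val)) r) := fun r =>
    Typ.mul (typ_one_of_comm (fun k => (n5 _).symm)) (tD _ r) (one_mul _)
  -- the relations
  have H := fun s L => rel h (c := fun l => Q6.FreeAct.cmp Y l x)
    (c' := fun l => Q6.FreeAct.cmp Y l u)
    (a := fun r => D Y (fun k => I ^ (3 * d k.val)) r) (b := fun r => D Y (fun k => I ^ d k.val) r)
    (e := fun r => 5 * D Y (fun k => I ^ (2 * d k.val)) r) tc tc'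
    (fun r => tD (fun k => 3 * d k.val) r) (fun r => tD (fun k => d k.val) r) te (by
      intro j
      rw [cmp_total h, cmp_total h, D_inv h (fun k => I ^ (3 * d k.val)),
        D_inv h (fun k => I ^ d k.val)]
      have e1 : ∑ r, Y (r * j) * (5 * D Y (fun k => I ^ (2 * d k.val)) r) =
          25 * I ^ (2 * d j.val) := by
        have : ∀ r, Y (r * j) * (5 * D Y (fun k => I ^ (2 * d k.val)) r) =
            5 * (Y (r * j) * D Y (fun k => I ^ (2 * d k.val)) r) := fun r => by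
          rw [← mul_assoc, n5, mul_assoc]
        simp only [this]
        rw [← Finset.mul_sum, D_inv h (fun k => I ^ (2 * d k.val)), ← mul_assoc]
        norm_num
      rw [e1]
      have hq := congrArg (fun r => 25 * (I ^ (2 * d j.val) * r)) (hQ j)
      simp only [mul_zero] at hq
      rw [← hq]
      have i1 : I ^ (2 * d j.val) * I ^ d j.val = I ^ (3 * d j.val) := by
        rw [← pow_add]; congr 1; ring
      have i2 : I ^ (2 * d j.val) * I ^ (2 * d j.val) = 1 := by
        rw [← pow_add, show 2 * d j.val + 2 * d j.val = 4 * d j.val by ring, pow_mul, hI4, one_pow]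
      have i3 : I ^ (2 * d j.val) * I ^ (3 * d j.val) = I ^ d j.val := by
        rw [← pow_add, show 2 * d j.val + 3 * d j.val = 4 * d j.val + d j.val by ring, pow_add,
          pow_mul, hI4, one_pow, one_mul]
      have e2 : I ^ (2 * d j.val) * (1 + I ^ d j.val * (x * Y j) +
          I ^ (2 * d j.val) * ((x * Y j) * (x * Y j)) + I ^ (3 * d j.val) * (Y (-j) * u) +
          I ^ (2 * d j.val) * ((Y (-j) * u) * (Y (-j) * u))) =
          I ^ (2 * d j.val) + I ^ (3 * d j.val) * (x * Y j) + (x * Y j) * (x * Y j) +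
          I ^ d j.val * (Y (-j) * u) + (Y (-j) * u) * (Y (-j) * u) := by
        rw [← i1]
        rw [← i1] at i3
        linear_combination (norm := noncomm_ring) i2 * ((x * Y j) * (x * Y j)) +
          i2 * ((Y (-j) * u) * (Y (-j) * u)) + i3 * (Y (-j) * u)
      rw [e2]
      have e3 : (5 * x) * Y j * ((5 * x) * Y j) = 25 * ((x * Y j) * (x * Y j)) := by
        have : x * Y j * (5 * (x * Y j)) = 5 * (x * Y j * (x * Y j)) := by
          rw [← mul_assoc, n5, mul_assoc]
        rw [mul_assoc 5, mul_assoc 5, this, ← mul_assoc]; norm_num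
      have e4 : Y (-j) * (5 * u) = 5 * (Y (-j) * u) := by rw [← mul_assoc, n5, mul_assoc]
      have e5 : 5 * (Y (-j) * u) * (5 * (Y (-j) * u)) = 25 * (Y (-j) * u * (Y (-j) * u)) := by
        have : (Y (-j) * u) * (5 * (Y (-j) * u)) = 5 * (Y (-j) * u * (Y (-j) * u)) := by
          rw [← mul_assoc, n5, mul_assoc]
        rw [mul_assoc 5, this, ← mul_assoc]; norm_num
      have e6 : ∀ p q : R, 5 * p * (5 * q) = 25 * (p * q) := fun p q => by
        rw [mul_assoc, ← mul_assoc p, n5, mul_assoc 5 p, ← mul_assoc]; norm_num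
      rw [e3, e4, e5, mul_assoc 5 x, e6, e6]
      simp only [mul_add]
      abel) s L
  have V := prodrel h (c := fun l => Q6.FreeAct.cmp Y l x) (c' := fun l => Q6.FreeAct.cmp Y l u)
    tc tc' (by
      rw [cmp_total h, cmp_total h, mul_assoc, ← mul_assoc x, n5, mul_assoc 5 x, hxu, mul_one]
      norm_num)
  obtain ⟨q1, q2, q3, q4, q5, q6, q7, q8, q9⟩ := w_eval (fun l => Q6.FreeAct.cmp Y l x)
    (fun l => Q6.FreeAct.cmp Y l u)
    (fun r => D Y (fun k => I ^ (3 * d k.val)) r) (fun r => D Y (fun k => I ^ d k.val) r)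
    (fun r => 5 * D Y (fun k => I ^ (2 * d k.val)) r) (cmp_zero h x) (cmp_zero h u)
  obtain ⟨p1, p2, p3, p4, p5, p6⟩ := w_eval' (fun l => Q6.FreeAct.cmp Y l x)
    (fun l => Q6.FreeAct.cmp Y l u)
    (fun r => D Y (fun k => I ^ (3 * d k.val)) r) (fun r => D Y (fun k => I ^ d k.val) r)
    (fun r => 5 * D Y (fun k => I ^ (2 * d k.val)) r) (cmp_zero h x) (cmp_zero h u)
  obtain ⟨v1, v2⟩ := v_eval (fun l => Q6.FreeAct.cmp Y l x)
    (fun l => Q6.FreeAct.cmp Y l u) (cmp_zero h x) (cmp_zero h u)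
  have mv : ∀ (F : ZMod 5 → ℕ) (l r : ZMod 5) (w : R), Typ Y l w →
      w * D Y (fun k => I ^ F k) r = D Y (fun k => I ^ F k) (l * r) * w := fun F l r w hw =>
    D_move (fun k => hIc _ _) hw r
  exact {
    r43 := q1.symm.trans (H 4 3)
    r42 := q2.symm.trans (H 4 2)
    r22 := q3.symm.trans (H 2 2)
    r33 := q4.symm.trans (H 3 3)
    r32 := q5.symm.trans (H 3 2)
    r13 := q6.symm.trans (H 1 3)
    r44 := q7.symm.trans (H 4 4)
    r04 := q8.symm.trans (H 0 4)
    r34 := q9.symm.trans (H 3 4)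
    r11 := p1.symm.trans (H 1 1)
    r41 := p2.symm.trans (H 4 1)
    r21 := p3.symm.trans (H 2 1)
    r31 := p4.symm.trans (H 3 1)
    r01 := p5.symm.trans (H 0 1)
    r02 := p6.symm.trans (H 0 2)
    xu1 := by
      have := v1.symm.trans (V 1)
      exact add_neg_eq_zero.1 this
    xu2 := v2.symm.trans (V 2)
    m1 := mv (fun k => 3 * d k.val) 2 1 _ (tc 2)
    m2 := mv (fun k => d k.val) 2 4 _ (tc' 2)
    m3 := mv (fun k => 3 * d k.val) 3 1 _ (tc 3)
    m4 := mv (fun k => d k.val) 3 4 _ (tc' 3)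
    m5 := mv (fun k => d k.val) 4 4 _ (tc' 4)
    m6 := mv (fun k => 3 * d k.val) 4 1 _ (tc 4)
    m7 := mv (fun k => d k.val) 2 4 _ (tc 2)
    ca := D0 (fun k => 3 * d k.val)
    cb := D0 (fun k => d k.val)
    aX := fun r => DX (fun k => 3 * d k.val) r _ (tc 1)
    aU := fun r => DX (fun k => 3 * d k.val) r _ (tc' 1)
    bX := fun r => DX (fun k => d k.val) r _ (tc 1)
    bU := fun r => DX (fun k => d k.val) r _ (tc' 1)
    eX := fun r => by
      show 5 * _ * _ = _ * (5 * _)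
      rw [mul_assoc, DX (fun k => 2 * d k.val) r _ (tc 1), ← mul_assoc, ← n5, mul_assoc]
    eU := fun r => by
      show 5 * _ * _ = _ * (5 * _)
      rw [mul_assoc, DX (fun k => 2 * d k.val) r _ (tc' 1), ← mul_assoc, ← n5, mul_assoc]
    aa := fun r s => DX (fun k => 3 * d k.val) r _ (tD _ s)
    ab := fun r s => DX (fun k => 3 * d k.val) r _ (tD (fun k => d k.val) s)
    bb := fun r s => DX (fun k => d k.val) r _ (tD (fun k => d k.val) s)
    ae := fun r s => DX (fun k => 3 * d k.val) r _ (te s)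
    be := fun r s => DX (fun k => d k.val) r _ (te s)
    kb := kb }

end

end H10.FA
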