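import Mathlib
import Pool.Agent.H10.FA.Coll2

/-!
# The collapse of the ring, continued
-/

set_option autoImplicit false
set_option linter.unusedSimpArgs false

universe u

namespace H10.FA

open Q6.FreeAct

theorem collapse_abs {R : Type u} [Ring R] {Y : ZMod 5 → R} (h : Five Y) {I : R}
    (hI : I * I = -1) (hc : ∀ r : R, I * r = r * I)
    (d : ℕ → ℕ) (s : ℤ) (c : Fin 7 → P3) (n : ℤ) (hck : check d s c n = true)
    (a b e : ZMod 5 → R) (X U x2 x3 x4 u2 u3 u4 : R) (S : Sys a b e X U x2 x3 x4 u2 u3 u4)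
    (ea : ∀ r : ℕ, evalK (Y 1) I (aK d r) = a (r : ZMod 5))
    (eb : ∀ r : ℕ, evalK (Y 1) I (bK d r) = b (r : ZMod 5))
    (ee : ∀ r : ℕ, evalK (Y 1) I (eK d r) = e (r : ZMod 5))
    (hs : c 6 = [] ∨ (s = 1 ∧ a 0 = b 0) ∨ (s = -1 ∧ a 0 = -b 0))
    (kap : ∀ r : R, a 0 * b 0 * a 4 * r = 0 → a 0 * b 0 * b 1 * r = 0 → r = 0)
    (tX : Typ Y 1 X) (tU : Typ Y 1 U) (t4 : Typ Y 4 x4) (t4' : Typ Y 4 u4)
    (ta : ∀ r, Typ Y 1 (a r)) (tb : ∀ r, Typ Y 1 (b r)) :
    (n : R) = 0 := by
  obtain ⟨hY2, hY3, hY4, hsum⟩ := Y_facts h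
  have hyi : Y 1 * I = I * Y 1 := (hc _).symm
  -- the two commute
  have hBA : (U + b 4) * (X + a 1) = (X + a 1) * (U + b 4) := by
    rw [← sub_eq_zero]
    apply kap
    · exact S.o10
    · have := S.o11
      linear_combination (norm := noncomm_ring) -this
  have tA : Typ Y 1 (X + a 1) := tX.add (ta 1)
  have tB : Typ Y 1 (U + b 4) := tU.add (tb 4)
  have tT : Typ Y 1 (x4 * u4) := t4.mul t4' (by decide)
  have hyA : (X + a 1) * Y 1 = Y 1 * (X + a 1) := by rw [tA 1, one_mul]
  have hyB : (U + b 4) * Y 1 = Y 1 * (U + b 4) := by rw [tB 1, one_mul]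
  have hyT : x4 * u4 * Y 1 = Y 1 * (x4 * u4) := by rw [tT 1, one_mul]
  have hTA := S.T_A
  have hTB := S.T_A'
  obtain ⟨S', _, f, hf, hs'⟩ := transfer ({Y 1, I, X + a 1, U + b 4, x4 * u4} : Set R) (by
    rintro p (rfl | rfl | rfl | rfl | rfl) q (rfl | rfl | rfl | rfl | rfl)
    all_goals first
      | rfl
      | exact hyi
      | exact hyi.symm
      | exact hyA
      | exact hyA.symm
      | exact hyB
      | exact hyB.symm
      | exact hyT
      | exact hyT.symm
      | exact hTA
      | exact hTA.symm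
      | exact hTB
      | exact hTB.symm
      | exact hBA
      | exact hBA.symm
      | exact hc _
      | exact (hc _).symm)
  obtain ⟨y, hy⟩ := hs' (Y 1) (by simp)
  obtain ⟨i, hi⟩ := hs' I (by simp)
  obtain ⟨A, hA⟩ := hs' (X + a 1) (by simp)
  obtain ⟨B, hB⟩ := hs' (U + b 4) (by simp)
  obtain ⟨T, hT⟩ := hs' (x4 * u4) (by simp)
  have fa : ∀ r : ℕ, f (evalK y i (aK d r)) = a (r : ZMod 5) := fun r => by
    rw [map_evalK, hy, hi, ea]
  have fb : ∀ r : ℕ, f (evalK y i (bK d r)) = b (r : ZMod 5) := fun r => by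
    rw [map_evalK, hy, hi, eb]
  have fe : ∀ r : ℕ, f (evalK y i (eK d r)) = e (r : ZMod 5) := fun r => by
    rw [map_evalK, hy, hi, ee]
  have key : ((n : S')) = 0 := by
    have fa0 : f (evalK y i (aK d 0)) = a 0 := fa 0
    have fa1 : f (evalK y i (aK d 1)) = a 1 := by simpa using fa 1
    have fa2 : f (evalK y i (aK d 2)) = a 2 := fa 2
    have fa3 : f (evalK y i (aK d 3)) = a 3 := fa 3
    have fa4 : f (evalK y i (aK d 4)) = a 4 := fa 4
    have fb0 : f (evalK y i (bK d 0)) = b 0 := fb 0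
    have fb1 : f (evalK y i (bK d 1)) = b 1 := by simpa using fb 1
    have fb2 : f (evalK y i (bK d 2)) = b 2 := fb 2
    have fb3 : f (evalK y i (bK d 3)) = b 3 := fb 3
    have fb4 : f (evalK y i (bK d 4)) = b 4 := fb 4
    have fe0 : f (evalK y i (eK d 0)) = e 0 := fe 0
    have fe1 : f (evalK y i (eK d 1)) = e 1 := by simpa using fe 1
    have fe2 : f (evalK y i (eK d 2)) = e 2 := fe 2
    have fe3 : f (evalK y i (eK d 3)) = e 3 := fe 3
    have fe4 : f (evalK y i (eK d 4)) = e 4 := fe 4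
    refine check_sound (y := y) (i := i) (T := T) (A := A) (B := B) d s c n hck ?_ ?_
      (fun r => evalK y i (aK d r)) (fun r => evalK y i (bK d r)) (fun r => evalK y i (eK d r))
      (fun r => rfl) (fun r => rfl) (fun r => rfl) _ _ _ _ _ _ _ rfl rfl rfl rfl rfl rfl rfl
      ?_ ?_ ?_ ?_ ?_ ?_ ?_
    · apply hf
      simpa only [map_add, map_mul, map_one, map_zero, hy] using hsum
    · apply hf
      simpa only [map_mul, map_neg, map_one, hi] using hI
    · apply hf
      simp only [map_add, map_mul, map_sub, map_neg, map_zero, map_ofNat, hA, hB, hT, fa0, fa1, fa2,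
        fa3, fa4, fb0, fb1, fb2, fb3, fb4, fe0, fe1, fe2, fe3, fe4, add_sub_cancel_right]
      have := S.o1
      rw [hBA] at this
      exact this
    · apply hf
      simp only [map_add, map_mul, map_sub, map_neg, map_zero, map_ofNat, hA, hB, hT, fa0, fa1, fa2,
        fa3, fa4, fb0, fb1, fb2, fb3, fb4, fe0, fe1, fe2, fe3, fe4, add_sub_cancel_right]
      exact S.o2
    · apply hf
      simp only [map_add, map_mul, map_sub, map_neg, map_zero, map_ofNat, hA, hB, hT, fa0, fa1, fa2,
        fa3, fa4, fb0, fb1, fb2, fb3, fb4, fe0, fe1, fe2, fe3, fe4, add_sub_cancel_right]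
      exact S.o3
    · apply hf
      simp only [map_add, map_mul, map_sub, map_neg, map_zero, map_ofNat, hA, hB, hT, fa0, fa1, fa2,
        fa3, fa4, fb0, fb1, fb2, fb3, fb4, fe0, fe1, fe2, fe3, fe4, add_sub_cancel_right]
      exact S.o4
    · apply hf
      simp only [map_add, map_mul, map_sub, map_neg, map_zero, map_ofNat, hA, hB, hT, fa0, fa1, fa2,
        fa3, fa4, fb0, fb1, fb2, fb3, fb4, fe0, fe1, fe2, fe3, fe4, add_sub_cancel_right]
      rw [S.o7]
      exact neg_add_cancel _
    · apply hf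
      simp only [map_add, map_mul, map_sub, map_neg, map_zero, map_ofNat, hA, hB, hT, fa0, fa1, fa2,
        fa3, fa4, fb0, fb1, fb2, fb3, fb4, fe0, fe1, fe2, fe3, fe4, add_sub_cancel_right]
      rw [S.o8]
      exact neg_add_cancel _
    · rcases hs with h1 | ⟨h1, h2⟩ | ⟨h1, h2⟩
      · exact Or.inl h1
      · right
        apply hf
        simp only [map_add, map_mul, map_sub, map_neg, map_zero, map_ofNat, map_intCast, hA, hB,
          hT, fa0, fa1, fa2,
          fa3, fa4, fb0, fb1, fb2, fb3, fb4, fe0, fe1, fe2, fe3, fe4, add_sub_cancel_right, h1]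
        have := S.o9p h2
        rw [← this]
        push_cast
        noncomm_ring
      · right
        apply hf
        simp only [map_add, map_mul, map_sub, map_neg, map_zero, map_ofNat, map_intCast, hA, hB,
          hT, fa0, fa1, fa2,
          fa3, fa4, fb0, fb1, fb2, fb3, fb4, fe0, fe1, fe2, fe3, fe4, add_sub_cancel_right, h1]
        have := S.o9m h2
        rw [← this]
        push_cast
        noncomm_ring
  have := congrArg f key
  rwa [map_intCast, map_zero] at this

end H10.FA
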