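import Mathlib
import Pool.Agent.H10.FA.Coll3

/-!
# The collapse of the ring, end
-/

set_option autoImplicit false

universe u

namespace H10.FA

open Q6.FreeAct

/-- if the twisted relations of a pattern with a certificate hold then the ring is zero -/
theorem collapse {d : ℕ → ℕ} {s : ℤ} {c1 c2 : Fin 7 → P3} {n1 n2 : ℤ} {ku kv kw : K}
    {den nb : ℕ} (C : Cert d s c1 c2 n1 n2 ku kv kw den nb)
    {R : Type u} [Ring R] {Y : ZMod 5 → R} (h : Five Y) {I x u : R}
    (hI : I * I = -1) (hc : ∀ r : R, I * r = r * I) (t10 : ∀ r : R, 10 * r = 0 → r = 0)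
    (hxu : x * u = 1)
    (hQ : ∀ j : ZMod 5, 1 + I ^ d j.val * (x * Y j) +
      I ^ (2 * d j.val) * ((x * Y j) * (x * Y j)) + I ^ (3 * d j.val) * (Y (-j) * u) +
      I ^ (2 * d j.val) * ((Y (-j) * u) * (Y (-j) * u)) = 0) :
    (1 : R) = 0 := by
  obtain ⟨hY2, hY3, hY4, hsum⟩ := Y_facts h
  have hyi : Y 1 * I = I * Y 1 := (hc _).symm
  have em := evalK_mul_R (Y 1) I hyi hsum hI
  -- evaluation of the coefficients
  have ea : ∀ r : ℕ, evalK (Y 1) I (aK d r) = D Y (fun k => I ^ (3 * d k.val)) (r : ZMod 5) :=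
    fun r => coef_eval h hI hc (fun k => 3 * d k) r
  have eb : ∀ r : ℕ, evalK (Y 1) I (bK d r) = D Y (fun k => I ^ d k.val) (r : ZMod 5) :=
    fun r => coef_eval h hI hc d r
  have ee : ∀ r : ℕ, evalK (Y 1) I (eK d r) = 5 * D Y (fun k => I ^ (2 * d k.val)) (r : ZMod 5) :=
    fun r => by
      rw [eK, em, evalK_int, coef_eval h hI hc (fun k => 2 * d k) r]
      norm_num
  have kb : ∀ r : R, D Y (fun k => I ^ d k.val) 0 * r = 0 → r = 0 := by
    intro r hr
    have h1 := evalK_isZ (Y 1) I _ C.hb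
    rw [evalK_add', em, evalK_int, eb] at h1
    apply dvd_zero_div t10 C.hnb
    have h2 : (nb : R) = evalK (Y 1) I kw * D Y (fun k => I ^ d k.val) ((0 : ℕ) : ZMod 5) := by
      push_cast at h1 ⊢
      linear_combination (norm := noncomm_ring) -h1
    rw [h2, mul_assoc]
    have h3 : ((0 : ℕ) : ZMod 5) = 0 := by simp
    rw [h3, hr, mul_zero]
  have ea0 : evalK (Y 1) I (aK d 0) = D Y (fun k => I ^ (3 * d k.val)) 0 := ea 0
  have eb0 : evalK (Y 1) I (bK d 0) = D Y (fun k => I ^ d k.val) 0 := eb 0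
  have ea4 : evalK (Y 1) I (aK d 4) = D Y (fun k => I ^ (3 * d k.val)) 4 := ea 4
  have eb1 : evalK (Y 1) I (bK d 1) = D Y (fun k => I ^ d k.val) 1 := by simpa using eb 1
  have S := mkSys hxu d hQ kb h hI hc
  -- the kappa certificate
  have kap : ∀ r : R, D Y (fun k => I ^ (3 * d k.val)) 0 * D Y (fun k => I ^ d k.val) 0 *
      D Y (fun k => I ^ (3 * d k.val)) 4 * r = 0 →
      D Y (fun k => I ^ (3 * d k.val)) 0 * D Y (fun k => I ^ d k.val) 0 *
      D Y (fun k => I ^ d k.val) 1 * r = 0 → r = 0 := by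
    intro r h1 h2
    have h3 := evalK_isZ (Y 1) I _ C.kap
    simp only [evalK_add', em, ea0, eb0, ea4, eb1, evalK_int] at h3
    apply dvd_zero_div t10 C.hden
    have h4 : (den : R) = evalK (Y 1) I ku * (D Y (fun k => I ^ (3 * d k.val)) 0 *
        D Y (fun k => I ^ d k.val) 0 * D Y (fun k => I ^ (3 * d k.val)) 4) +
        evalK (Y 1) I kv * (D Y (fun k => I ^ (3 * d k.val)) 0 *
        D Y (fun k => I ^ d k.val) 0 * D Y (fun k => I ^ d k.val) 1) := by
      push_cast at h3 ⊢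
      linear_combination (norm := noncomm_ring) -h3
    rw [h4, add_mul, mul_assoc (evalK (Y 1) I ku), mul_assoc (evalK (Y 1) I kv), h1, h2,
      mul_zero, mul_zero, add_zero]
  have hs0 : ∀ c : Fin 7 → P3, c 6 = [] → c 6 = [] ∨
      (s = 1 ∧ D Y (fun k => I ^ (3 * d k.val)) 0 = D Y (fun k => I ^ d k.val) 0) ∨
      (s = -1 ∧ D Y (fun k => I ^ (3 * d k.val)) 0 = -D Y (fun k => I ^ d k.val) 0) :=
    fun c h => Or.inl h
  have hs1 : (c1 6 = [] ∧ c2 6 = []) ∨
      (s = 1 ∧ D Y (fun k => I ^ (3 * d k.val)) 0 = D Y (fun k => I ^ d k.val) 0) ∨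
      (s = -1 ∧ D Y (fun k => I ^ (3 * d k.val)) 0 = -D Y (fun k => I ^ d k.val) 0) := by
    rcases C.hs with h1 | ⟨h1, h2⟩ | ⟨h1, h2⟩
    · exact Or.inl h1
    · right; left
      refine ⟨h1, ?_⟩
      have h3 := evalK_isZ (Y 1) I _ h2
      rw [evalK_add', evalK_neg', ea0, eb0] at h3
      exact add_neg_eq_zero.1 h3
    · right; right
      refine ⟨h1, ?_⟩
      have h3 := evalK_isZ (Y 1) I _ h2
      rw [evalK_add', ea0, eb0] at h3
      exact eq_neg_of_add_eq_zero_left h3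
  have hIc := Ipow_comm hc
  have hYc : ∀ k l, Y k * Y l = Y l * Y k := fun k l => by
    rw [← h.add, ← h.add, add_comm]
  have tD : ∀ (F : ZMod 5 → ℕ) (r : ZMod 5), Typ Y 1 (D Y (fun k => I ^ F k) r) := fun F r =>
    typ_one_of_comm (fun k => D_comm (fun l => hIc _ _) (fun l => hYc l k) r)
  have main : ∀ (c : Fin 7 → P3) (n : ℤ), check d s c n = true → (c 6 = [] ∨
      (s = 1 ∧ D Y (fun k => I ^ (3 * d k.val)) 0 = D Y (fun k => I ^ d k.val) 0) ∨
      (s = -1 ∧ D Y (fun k => I ^ (3 * d k.val)) 0 = -D Y (fun k => I ^ d k.val) 0)) →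
      (n : R) = 0 := fun c n hck hs =>
    collapse_abs h hI hc d s c n hck (fun r => D Y (fun k => I ^ (3 * d k.val)) r)
      (fun r => D Y (fun k => I ^ d k.val) r) (fun r => 5 * D Y (fun k => I ^ (2 * d k.val)) r)
      _ _ _ _ _ _ _ _ S ea eb ee hs kap (cmp_typ h 1 x) (cmp_typ h 1 u) (cmp_typ h 4 x)
      (cmp_typ h 4 u) (fun r => tD (fun k => 3 * d k.val) r) (fun r => tD (fun k => d k.val) r)
  have m1 : (n1 : R) = 0 := by
    apply main c1 n1 C.chk1
    rcases hs1 with h1 | h1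
    · exact Or.inl h1.1
    · exact Or.inr h1
  have m2 : (n2 : R) = 0 := by
    apply main c2 n2 C.chk2
    rcases hs1 with h1 | h1
    · exact Or.inl h1.2
    · exact Or.inr h1
  apply dvd_zero_div t10 C.gcd
  rw [mul_one]
  have h5 := congrArg (Int.cast (R := R)) (Int.gcd_eq_gcd_ab n1 n2)
  push_cast at h5
  rw [m1, m2, zero_mul, zero_mul, add_zero] at h5
  exact h5

end H10.FA
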