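import Mathlib
import Pool.Agent.H10.FA.Coll4
import Pool.Agent.H10.FA.Data4
import Pool.Agent.H10.FA.Data7
import Pool.Agent.H10.FA.Data8
import Pool.Agent.H10.FA.Data9
import Pool.Agent.H10.FA.Data10
import Pool.Agent.H10.FA.Data11
import Pool.Agent.H10.FA.Data12

/-!
# The seven certificates
-/

set_option autoImplicit false
set_option maxRecDepth 100000

namespace H10.FA

theorem cert4 : Cert d4 (0) c4_1 c4_2 n4_1 n4_2
    ⟨2, 6, -6, 2, 1, 3, -2, 4⟩ ⟨0, 0, 0, 0, 0, 0, 0, 0⟩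
    ⟨2, -1, 0, 0, 0, 0, 0, 0⟩ 50 5 where
  chk1 := chk4_1
  chk2 := chk4_2
  hs := Or.inl ⟨rfl, rfl⟩
  gcd := by decide +kernel
  kap := by decide +kernel
  hden := by decide +kernel
  hb := by decide +kernel
  hnb := by decide +kernel

theorem cert7 : Cert d7 (0) c7_1 c7_2 n7_1 n7_2
    ⟨3, 1, -4, 2, -1, 3, -3, -1⟩ ⟨0, 0, 0, 0, 0, 0, 0, 0⟩
    ⟨1, -2, 0, 0, 0, 0, 0, 0⟩ 50 5 where
  chk1 := chk7_1
  chk2 := chk7_2
  hs := Or.inl ⟨rfl, rfl⟩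
  gcd := by decide +kernel
  kap := by decide +kernel
  hden := by decide +kernel
  hb := by decide +kernel
  hnb := by decide +kernel

theorem cert8 : Cert d8 (0) c8_1 c8_2 n8_1 n8_2
    ⟨0, 0, -1, 3, -3, -1, -1, 3⟩ ⟨0, 0, 0, 0, 0, 0, 0, 0⟩
    ⟨1, -2, 0, 0, 0, 0, 0, 0⟩ 50 5 where
  chk1 := chk8_1
  chk2 := chk8_2
  hs := Or.inl ⟨rfl, rfl⟩
  gcd := by decide +kernel
  kap := by decide +kernel
  hden := by decide +kernel
  hb := by decide +kernel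
  hnb := by decide +kernel

theorem cert9 : Cert d9 (-1) c9_1 c9_2 n9_1 n9_2
    ⟨-2, 2, 0, 2, -2, 0, -1, 3⟩ ⟨0, 0, 0, 0, 0, 0, 0, 0⟩
    ⟨0, -1, 0, 0, 0, 0, 0, 0⟩ 2 1 where
  chk1 := chk9_1
  chk2 := chk9_2
  hs := Or.inr (Or.inr ⟨rfl, by decide +kernel⟩)
  gcd := by decide +kernel
  kap := by decide +kernel
  hden := by decide +kernel
  hb := by decide +kernel
  hnb := by decide +kernel

theorem cert10 : Cert d10 (1) c10_1 c10_2 n10_1 n10_2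
    ⟨0, 2, -1, 1, -1, 1, -1, 1⟩ ⟨0, 0, 0, 0, 0, 0, 0, 0⟩
    ⟨1, 0, 0, 0, 0, 0, 0, 0⟩ 2 1 where
  chk1 := chk10_1
  chk2 := chk10_2
  hs := Or.inr (Or.inl ⟨rfl, by decide +kernel⟩)
  gcd := by decide +kernel
  kap := by decide +kernel
  hden := by decide +kernel
  hb := by decide +kernel
  hnb := by decide +kernel

theorem cert11 : Cert d11 (1) c11_1 c11_2 n11_1 n11_2
    ⟨-1, -1, 0, -2, 1, -2, 1, 0⟩ ⟨-1, -1, 0, -2, 1, -2, 1, 0⟩
    ⟨1, 0, 0, 0, 0, 0, 0, 0⟩ 2 1 where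
  chk1 := chk11_1
  chk2 := chk11_2
  hs := Or.inr (Or.inl ⟨rfl, by decide +kernel⟩)
  gcd := by decide +kernel
  kap := by decide +kernel
  hden := by decide +kernel
  hb := by decide +kernel
  hnb := by decide +kernel

theorem cert12 : Cert d12 (-1) c12_1 c12_2 n12_1 n12_2
    ⟨-5, -3, 0, -6, -5, 1, -5, -7⟩ ⟨-5, -3, 0, -6, -5, 1, -5, -7⟩
    ⟨0, -1, 0, 0, 0, 0, 0, 0⟩ 10 1 where
  chk1 := chk12_1
  chk2 := chk12_2
  hs := Or.inr (Or.inr ⟨rfl, by decide +kernel⟩)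
  gcd := by decide +kernel
  kap := by decide +kernel
  hden := by decide +kernel
  hb := by decide +kernel
  hnb := by decide +kernel

end H10.FA
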