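import Mathlib
import Pool.Agent.H10.FA.Certs
import Pool.Agent.H10.FreeAct.Grp

/-!
# Patterns of elements of order five
-/

set_option autoImplicit false

universe u

namespace H10.FA

open Q6.FreeAct

variable {G : Type*} {V : Type u} [Group G] [AddCommGroup V] [DistribMulAction G V]

/-- an element of order five gives a family of operators in a subring -/
theorem five_sub {A : Subring (AddMonoid.End V)} {y : G} (hf : IsFree G V) (hy : y ^ 5 = 1)
    (hy1 : y ≠ 1) (hA : ∀ n : ℕ, rho G V (y ^ n) ∈ A) :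
    Five (fun j : ZMod 5 => (⟨rho G V (y ^ j.val), hA j.val⟩ : A)) := by
  have h := five_pw hf hy hy1
  refine ⟨?_, ?_, ?_, ?_⟩
  · exact Subtype.ext h.zero
  · intro i j
    exact Subtype.ext (h.add i j)
  · exact Subtype.ext h.sum
  · intro r hr
    exact Subtype.ext (h.tf r.1 (congrArg Subtype.val hr))

theorem no_ten {t y : G} (hf : IsFree G V) (hy : y ^ 5 = 1) (hy1 : y ≠ 1) (ht : t ^ 2 = 1)
    (ht1 : t ≠ 1) (v : V) (hv : (10 : ℕ) • v = 0) : v = 0 := by
  have h2 : (2 : ℕ) • v = 0 := by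
    apply no_five hf hy hy1
    rw [← mul_smul]; exact hv
  apply hf t ht1
  rw [no_two hf ht ht1]
  rw [two_nsmul] at h2
  exact (eq_neg_of_add_eq_zero_left h2).symm

/-- the pattern of a certificate is not the pattern of a pair of elements -/
theorem no_pattern [Nontrivial V] {d : ℕ → ℕ} {s : ℤ} {c1 c2 : Fin 7 → P3} {n1 n2 : ℤ}
    {ku kv kw : K} {den nb : ℕ} (C : Cert d s c1 c2 n1 n2 ku kv kw den nb)
    (hf : IsFree G V) {x y z : G} (hz : ∀ g : G, z * g = g * z) (z4 : z ^ 4 = 1)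
    (z2 : z ^ 2 ≠ 1) (hy : y ^ 5 = 1) (hxy : x * y ≠ y * x)
    (hp : ∀ j : ZMod 5, (x * y ^ j.val) ^ 5 = z ^ d j.val) : False := by
  have hy1 : y ≠ 1 := by rintro rfl; simp at hxy
  have hz2 : ∀ v : V, (z ^ 2) • v = -v := fun v =>
    no_two hf (by rw [← pow_mul]; exact z4) z2 v
  set A : Subring (AddMonoid.End V) := Subring.centralizer {rho G V z⁻¹} with hAd
  have hmem : ∀ g : G, rho G V g ∈ A := by
    intro g
    rw [hAd, Subring.mem_centralizer_iff]
    intro w hw
    rw [Set.mem_singleton_iff] at hw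
    subst hw
    rw [← map_mul, ← map_mul]
    congr 1
    have : Commute z g := hz g
    exact this.inv_left.eq
  have zi : z⁻¹ = z ^ 3 := by
    rw [inv_eq_iff_mul_eq_one, ← pow_succ']; exact z4
  have hF := five_sub (A := A) hf hy hy1 (fun n => hmem (y ^ n))
  have key := collapse C hF (I := ⟨rho G V z⁻¹, hmem z⁻¹⟩) (x := ⟨rho G V x, hmem x⟩)
    (u := ⟨rho G V x⁻¹, hmem x⁻¹⟩) ?_ ?_ ?_ ?_ ?_
  · obtain ⟨v, hv⟩ := exists_ne (0 : V)
    apply hv
    have := DFunLike.congr_fun (congrArg Subtype.val key) v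
    exact this
  · apply Subtype.ext
    show rho G V z⁻¹ * rho G V z⁻¹ = -1
    rw [← map_mul]
    have : z⁻¹ * z⁻¹ = z ^ 2 := by
      rw [zi, ← pow_add, show 3 + 3 = 4 + 2 from rfl, pow_add, z4, one_mul]
    rw [this]
    ext v
    exact hz2 v
  · rintro ⟨r, hr⟩
    apply Subtype.ext
    rw [hAd, Subring.mem_centralizer_iff] at hr
    exact hr _ rfl
  · rintro ⟨r, hr⟩ h10
    apply Subtype.ext
    ext v
    have := DFunLike.congr_fun (congrArg Subtype.val h10) v
    have e : ((10 : AddMonoid.End V) * r) v = (10 : ℕ) • (r v) := AddMonoid.End.natCast_apply 10 (r v)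
    apply no_ten hf hy hy1 (t := z ^ 2) (by rw [← pow_mul]; exact z4) z2
    exact e.symm.trans this
  · apply Subtype.ext
    show rho G V x * rho G V x⁻¹ = 1
    rw [← map_mul, mul_inv_cancel, map_one]
  · intro j
    apply Subtype.ext
    show 1 + rho G V z⁻¹ ^ d j.val * (rho G V x * rho G V (y ^ j.val)) +
      rho G V z⁻¹ ^ (2 * d j.val) * ((rho G V x * rho G V (y ^ j.val)) *
        (rho G V x * rho G V (y ^ j.val))) +
      rho G V z⁻¹ ^ (3 * d j.val) * (rho G V (y ^ (-j).val) * rho G V x⁻¹) +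
      rho G V z⁻¹ ^ (2 * d j.val) * ((rho G V (y ^ (-j).val) * rho G V x⁻¹) *
        (rho G V (y ^ (-j).val) * rho G V x⁻¹)) = 0
    have hzc : ∀ (n : ℕ) (g : G), Commute (z⁻¹ ^ n) g := fun n g =>
      ((show Commute z g from hz g).inv_left).pow_left n
    have hw5 : (z⁻¹ ^ d j.val * (x * y ^ j.val)) ^ 5 = 1 := by
      rw [(hzc _ _).mul_pow, hp j, ← pow_mul, zi, ← pow_mul, ← pow_add,
        show 3 * (d j.val * 5) + d j.val = 4 * (4 * d j.val) by ring, pow_mul, z4, one_pow]
    have hw1 : z⁻¹ ^ d j.val * (x * y ^ j.val) ≠ 1 := by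
      intro h1
      apply hxy
      have e : x = (z⁻¹ ^ d j.val)⁻¹ * (y ^ j.val)⁻¹ := by
        rw [← mul_inv_rev, eq_inv_iff_mul_eq_one]
        have h2 : z⁻¹ ^ d j.val * (x * y ^ j.val) = x * (y ^ j.val * z⁻¹ ^ d j.val) := by
          rw [(hzc _ _).eq, mul_assoc]
        rw [← h2]; exact h1
      have c1 : Commute ((z⁻¹ ^ d j.val)⁻¹) y := (hzc _ y).inv_left
      have c2 : Commute ((y ^ j.val)⁻¹) y := ((Commute.refl y).pow_left _).inv_left
      rw [e]
      exact (c1.mul_left c2).eq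
    have h5 := phi_plus hf hw5 hw1
    have e1 : rho G V (z⁻¹ ^ d j.val * (x * y ^ j.val)) =
        rho G V z⁻¹ ^ d j.val * (rho G V x * rho G V (y ^ j.val)) := by
      rw [map_mul, map_mul, map_pow]
    have e2 : rho G V (z⁻¹ ^ d j.val * (x * y ^ j.val))⁻¹ =
        rho G V z⁻¹ ^ (3 * d j.val) * (rho G V (y ^ (-j).val) * rho G V x⁻¹) := by
      rw [← map_pow, ← map_mul, ← map_mul]
      congr 1
      rw [mul_inv_rev, mul_inv_rev, pow_neg_val hy, ← inv_pow z⁻¹, inv_inv,
        ((show Commute z (((y ^ j.val)⁻¹ * x⁻¹)) from hz _).symm.pow_right _).eq]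
      congr 1
      rw [zi, ← pow_mul, show 3 * (3 * d j.val) = 4 * (2 * d j.val) + d j.val by ring, pow_add,
        pow_mul, z4, one_pow, one_mul]
    rw [e1, e2] at h5
    have hc1 : ∀ (n : ℕ) (g : G), rho G V z⁻¹ ^ n * rho G V g = rho G V g * rho G V z⁻¹ ^ n := by
      intro n g
      rw [← map_pow, ← map_mul, ← map_mul, (hzc n g).eq]
    have i4 : rho G V z⁻¹ ^ (4 * d j.val) = 1 := by
      rw [← map_pow, inv_pow, pow_mul, z4, one_pow, inv_one, map_one]
    have q1 : ∀ (n : ℕ) (g h : G), rho G V z⁻¹ ^ n * (rho G V g * rho G V h) *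
        (rho G V z⁻¹ ^ n * (rho G V g * rho G V h)) =
        rho G V z⁻¹ ^ (2 * n) * ((rho G V g * rho G V h) * (rho G V g * rho G V h)) := by
      intro n g h
      rw [← map_mul, ← map_pow, ← map_mul, ← map_mul, ← map_mul, ← map_pow, ← map_mul]
      congr 1
      have hw := (hzc n (g * h)).eq
      rw [two_mul, pow_add]
      generalize z⁻¹ ^ n = w at hw
      generalize g * h = k at hw
      rw [mul_assoc w k, ← mul_assoc k w, ← hw]
      simp only [mul_assoc]
    rw [q1, q1] at h5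
    have i6 : rho G V z⁻¹ ^ (2 * (3 * d j.val)) = rho G V z⁻¹ ^ (2 * d j.val) := by
      rw [show 2 * (3 * d j.val) = 4 * d j.val + 2 * d j.val by ring, pow_add, i4, one_mul]
    rw [i6] at h5
    exact h5

end H10.FA
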