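import Mathlib
import Pool.Agent.H10.FA.Patt
import Pool.Agent.H10.FA.Comb

/-!
# The exponent function and the lines
-/

set_option autoImplicit false

universe u

namespace H10.FA

open Q6.FreeAct

section

variable {G : Type*} [Group G]

/-- `s` records the fifth powers -/
structure SF (z : G) (s : G → ZMod 4) : Prop where
  zc : ∀ g, z * g = g * z
  z4 : z ^ 4 = 1
  z2 : z ^ 2 ≠ 1
  pow : ∀ g, g ^ 5 = z ^ (s g).val

theorem zp_mod {z : G} (z4 : z ^ 4 = 1) (n : ℕ) : z ^ ((n : ZMod 4)).val = z ^ n := by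
  rw [ZMod.val_natCast]
  exact (pow_eq_pow_mod n z4).symm

theorem zp_add {z : G} (z4 : z ^ 4 = 1) (m n : ZMod 4) :
    z ^ (m + n).val = z ^ m.val * z ^ n.val := by
  rw [← pow_add, ← zp_mod z4 (m.val + n.val)]
  congr 2

theorem zp_neg {z : G} (z4 : z ^ 4 = 1) (m : ZMod 4) : z ^ (-m).val = (z ^ m.val)⁻¹ := by
  rw [eq_inv_iff_mul_eq_one, ← zp_add z4, neg_add_cancel]
  simp

theorem zp_inj {z : G} (z4 : z ^ 4 = 1) (z2 : z ^ 2 ≠ 1) {m n : ZMod 4}
    (h : z ^ m.val = z ^ n.val) : m = n := by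
  have key : ∀ k : ZMod 4, z ^ k.val = 1 → k = 0 := by
    intro k hk
    fin_cases k
    · rfl
    · exfalso
      have hk' : z ^ 1 = 1 := hk
      rw [pow_one] at hk'
      exact z2 (by rw [hk', one_pow])
    · exact absurd hk z2
    · exfalso
      have hk' : z ^ 3 = 1 := hk
      have : z = 1 := by
        have e : z ^ 4 = z ^ 3 * z := pow_succ z 3
        rw [z4, hk', one_mul] at e
        exact e.symm
      exact z2 (by rw [this, one_pow])
  have h1 : z ^ (m - n).val = 1 := by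
    rw [sub_eq_add_neg, zp_add z4, zp_neg z4, h, mul_inv_cancel]
  exact sub_eq_zero.1 (key _ h1)

namespace SF

variable {z : G} {s : G → ZMod 4} (S : SF z s)

include S

theorem eq_of {g : G} {n : ZMod 4} (h : g ^ 5 = z ^ n.val) : s g = n := by
  rw [S.pow] at h
  exact zp_inj S.z4 S.z2 h

theorem com (n : ℕ) (g : G) : Commute (z ^ n) g := (show Commute z g from S.zc g).pow_left n

theorem shift (n : ZMod 4) (g : G) : s (z ^ n.val * g) = n + s g := by
  apply S.eq_of
  rw [(S.com _ _).mul_pow, S.pow g, ← pow_mul, zp_add S.z4, ← pow_add, ← pow_add,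
    show n.val * 5 + (s g).val = 4 * n.val + (n.val + (s g).val) by ring, pow_add, pow_mul, S.z4,
    one_pow, one_mul]

theorem comm (a b : G) : s (a * b) = s (b * a) := by
  apply S.eq_of
  have h : (a * b) ^ 5 = a * (b * a) ^ 5 * a⁻¹ := by
    rw [← conj_pow]; congr 1; group
  rw [h, S.pow, ← (S.com _ a).eq, mul_assoc, mul_inv_cancel, mul_one]

theorem inv (a : G) : s a⁻¹ = -s a := by
  apply S.eq_of
  rw [inv_pow, S.pow, zp_neg S.z4]

theorem zero_iff (a : G) : s a = 0 ↔ a ^ 5 = 1 := by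
  constructor
  · intro h
    rw [S.pow, h]
    simp
  · intro h
    apply S.eq_of
    rw [h]
    simp

theorem swap : SF z⁻¹ (fun g => -s g) where
  zc g := (show Commute z g from S.zc g).inv_left.eq
  z4 := by rw [inv_pow, S.z4, inv_one]
  z2 := by
    intro h
    apply S.z2
    rw [inv_pow, inv_eq_one] at h
    exact h
  pow g := by rw [inv_pow, zp_neg S.z4, inv_inv, S.pow]

end SF

end

theorem pow5_val {G : Type*} [Group G] {y : G} (hy : y ^ 5 = 1) (n : ℕ) :
    y ^ ((n : ZMod 5)).val = y ^ n := by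
  rw [ZMod.val_natCast]
  exact (pow_eq_pow_mod n hy).symm

theorem pow5_mul {G : Type*} [Group G] {y : G} (hy : y ^ 5 = 1) (a b : ZMod 5) :
    (y ^ a.val) ^ b.val = y ^ (a * b).val := by
  rw [← pow_mul, ← pow5_val hy (a.val * b.val)]
  congr 2

section

variable {G : Type*} {V : Type u} [Group G] [AddCommGroup V] [DistribMulAction G V]

/-- the seven patterns are impossible -/
theorem no_dd [Nontrivial V] (hf : IsFree G V) {z : G} {s : G → ZMod 4} (S : SF z s) {x y : G}
    (hy : y ^ 5 = 1) (hxy : x * y ≠ y * x) (i : Fin 7)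
    (hp : ∀ j : ZMod 5, s (x * y ^ j.val) = dd i j) : False := by
  have main : ∀ (d : ℕ → ℕ), (∀ j : ZMod 5, dd i j = ((d j.val : ℕ) : ZMod 4)) →
      ∀ j : ZMod 5, (x * y ^ j.val) ^ 5 = z ^ d j.val := by
    intro d hd j
    rw [S.pow, hp j, hd, zp_mod S.z4]
  fin_cases i
  · exact no_pattern cert4 hf S.zc S.z4 S.z2 hy hxy (main d4 (by decide))
  · exact no_pattern cert7 hf S.zc S.z4 S.z2 hy hxy (main d7 (by decide))
  · exact no_pattern cert8 hf S.zc S.z4 S.z2 hy hxy (main d8 (by decide))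
  · exact no_pattern cert9 hf S.zc S.z4 S.z2 hy hxy (main d9 (by decide))
  · exact no_pattern cert10 hf S.zc S.z4 S.z2 hy hxy (main d10 (by decide))
  · exact no_pattern cert11 hf S.zc S.z4 S.z2 hy hxy (main d11 (by decide))
  · exact no_pattern cert12 hf S.zc S.z4 S.z2 hy hxy (main d12 (by decide))

/-- the same with signs -/
theorem no_dd' [Nontrivial V] (hf : IsFree G V) {z : G} {s : G → ZMod 4} (S : SF z s) {x y : G}
    (hy : y ^ 5 = 1) (hxy : x * y ≠ y * x) (i : Fin 7) (e : Bool)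
    (hp : ∀ j : ZMod 5, s (x * y ^ j.val) = sg e (dd i j)) : False := by
  cases e
  · refine no_dd hf S.swap hy hxy i (fun j => ?_)
    rw [hp j]
    exact neg_neg _
  · exact no_dd hf S hy hxy i hp

/-- a line avoids the excluded patterns -/
theorem line [Nontrivial V] (hf : IsFree G V) {z : G} {s : G → ZMod 4} (S : SF z s) {g h : G}
    (hh : h ^ 5 = 1) (hgh : g * h ≠ h * g) :
    bad (s g) (s (g * h)) (s (g * h ^ 2)) (s (g * h ^ 3)) (s (g * h ^ 4)) = false := by
  by_contra hbad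
  rw [Bool.not_eq_false, bad_shift] at hbad
  obtain ⟨i, a, ha, b, e, -, h1, h2, h3, h4⟩ := bad_spec _ _ _ _ hbad
  have hq : ∀ k : ZMod 5, s (g * h ^ k.val) = s g + (sg e (dd i (k * a + b)) - sg e (dd i b)) := by
    intro k
    fin_cases k
    · show s (g * h ^ 0) = s g + (sg e (dd i (0 * a + b)) - sg e (dd i b))
      rw [pow_zero, mul_one, zero_mul, zero_add, sub_self, add_zero]
    · show s (g * h ^ 1) = s g + (sg e (dd i (1 * a + b)) - sg e (dd i b))
      rw [pow_one, one_mul, ← h1]; ring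
    · show s (g * h ^ 2) = s g + (sg e (dd i (2 * a + b)) - sg e (dd i b))
      rw [← h2]; ring
    · show s (g * h ^ 3) = s g + (sg e (dd i (3 * a + b)) - sg e (dd i b))
      rw [← h3]; ring
    · show s (g * h ^ 4) = s g + (sg e (dd i (4 * a + b)) - sg e (dd i b))
      rw [← h4]; ring
  have ha' : a⁻¹ * a = 1 := by
    have : Fact (Nat.Prime 5) := ⟨by norm_num⟩
    exact inv_mul_cancel₀ ha
  -- the new pair
  set m : ZMod 4 := -s g + sg e (dd i b) with hm
  have hy' : (h ^ (a⁻¹).val) ^ 5 = 1 := by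
    rw [← pow_mul, mul_comm, pow_mul, hh, one_pow]
  refine no_dd' hf S (x := z ^ m.val * (g * h ^ (-(a⁻¹ * b)).val)) (y := h ^ (a⁻¹).val) hy' ?_ i e ?_
  · intro hc
    apply hgh
    have c1 : Commute (z ^ m.val * (g * h ^ (-(a⁻¹ * b)).val)) (h ^ (a⁻¹).val) := hc
    have c2 : Commute (z ^ m.val * (g * h ^ (-(a⁻¹ * b)).val)) h := by
      have := c1.pow_right a.val
      rwa [pow5_mul hh, ha', show (1 : ZMod 5).val = 1 from rfl, pow_one] at this
    have e1 : g = (z ^ m.val)⁻¹ * (z ^ m.val * (g * h ^ (-(a⁻¹ * b)).val)) *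
        (h ^ (-(a⁻¹ * b)).val)⁻¹ := by group
    rw [e1]
    exact ((((S.com _ h).inv_left).mul_left c2).mul_left
      (((Commute.refl h).pow_left _).inv_left)).eq
  · intro j
    rw [pow5_mul hh, mul_assoc, mul_assoc, ← pow_val hh, S.shift, hq]
    have e2 : (-(a⁻¹ * b) + a⁻¹ * j) * a + b = j := by
      have : (-(a⁻¹ * b) + a⁻¹ * j) * a + b = (a⁻¹ * a) * (j - b) + b := by ring
      rw [this, ha']; ring
    rw [e2, hm]
    ring

end

end H10.FA
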