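import Mathlib
import Pool.Agent.H10.FA.Line
import Pool.Agent.H10.FreeAct.Str

/-!
# Products of elements of order five in the centralizer of an element of order four
-/

set_option autoImplicit false

universe u

namespace H10.FA

open Q6.FreeAct

section

variable {G : Type*} {V : Type u} [Group G] [AddCommGroup V] [DistribMulAction G V]

/-- a line in general position -/
theorem line' [Nontrivial V] (hf : IsFree G V) {z : G} {s : G → ZMod 4} (S : SF z s) {g h : G}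
    (hgh : g * h ≠ h * g) :
    ∃ w : ZMod 4, bad (s g) (s (g * h) - s h) (s (g * h ^ 2) - 2 * s h)
      (s (g * h ^ 3) - 3 * s h) w = false := by
  set m : ZMod 4 := -s h with hm
  have h5 : (z ^ m.val * h) ^ 5 = 1 := by
    rw [← S.zero_iff, S.shift, hm, neg_add_cancel]
  have hc : g * (z ^ m.val * h) ≠ (z ^ m.val * h) * g := by
    intro hc
    apply hgh
    have c1 : Commute g (z ^ m.val * h) := hc
    have c2 : Commute g ((z ^ m.val)⁻¹ * (z ^ m.val * h)) :=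
      ((S.com _ g).symm.inv_right).mul_right c1
    rw [inv_mul_cancel_left] at c2
    exact c2.eq
  have hl := line hf S h5 hc
  have hk : ∀ k : ℕ, s (g * (z ^ m.val * h) ^ k) = (k : ZMod 4) * m + s (g * h ^ k) := by
    intro k
    have e : g * (z ^ m.val * h) ^ k = z ^ (m.val * k) * (g * h ^ k) := by
      rw [(S.com _ h).mul_pow, ← pow_mul, ← mul_assoc, ← (S.com (m.val * k) g).eq, mul_assoc]
    rw [e, ← zp_mod S.z4 (m.val * k), S.shift, Nat.cast_mul, ZMod.natCast_zmod_val, mul_comm m]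
  have h1 := hk 1
  have h2 := hk 2
  have h3 := hk 3
  rw [pow_one, pow_one] at h1
  rw [h1, h2, h3] at hl
  refine ⟨s (g * (z ^ m.val * h) ^ 4), ?_⟩
  · have e1 : s (g * h) - s h = ((1 : ℕ) : ZMod 4) * m + s (g * h) := by
      rw [hm]; push_cast; ring
    have e2 : s (g * h ^ 2) - 2 * s h = ((2 : ℕ) : ZMod 4) * m + s (g * h ^ 2) := by
      rw [hm]; push_cast; ring
    have e3 : s (g * h ^ 3) - 3 * s h = ((3 : ℕ) : ZMod 4) * m + s (g * h ^ 3) := by
      rw [hm]; push_cast; ring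
    rw [e1, e2, e3]
    exact hl

theorem no_one [Nontrivial V] (hf : IsFree G V) {z : G} {s : G → ZMod 4} (S : SF z s) {x y : G}
    (hx : x ^ 5 = 1) (hy : y ^ 5 = 1) (hxy : x * y ≠ y * x) (h1 : s (x * y) = 1) : False := by
  have hcx : ¬ Commute x y := hxy
  have x0 : s x = 0 := (S.zero_iff x).2 hx
  have y0 : s y = 0 := (S.zero_iff y).2 hy
  have xi0 : s x⁻¹ = 0 := by rw [S.inv, x0, neg_zero]
  have yi0 : s y⁻¹ = 0 := by rw [S.inv, y0, neg_zero]
  have y4 : y ^ 4 = y⁻¹ := by rw [eq_inv_iff_mul_eq_one, ← pow_succ, hy]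
  have y3 : y ^ 3 = y⁻¹ * y⁻¹ := by
    rw [← mul_inv_rev, eq_inv_iff_mul_eq_one, ← pow_two, ← pow_add, hy]
  have x4 : x ^ 4 = x⁻¹ := by rw [eq_inv_iff_mul_eq_one, ← pow_succ, hx]
  have x3 : x ^ 3 = x⁻¹ * x⁻¹ := by
    rw [← mul_inv_rev, eq_inv_iff_mul_eq_one, ← pow_two, ← pow_add, hx]
  have hcj : ∀ a b : G, s (a * b * a⁻¹) = s b := fun a b => by
    rw [S.comm, inv_mul_cancel_left]
  have y2' : ∀ w : G, w = y * y → s w = 0 := by
    rintro w rfl
    rw [S.zero_iff, ← pow_two, ← pow_mul, mul_comm 2 5, pow_mul, hy, one_pow]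
  have x20 : s (x * x) = 0 := by
    rw [S.zero_iff, ← pow_two, ← pow_mul, mul_comm 2 5, pow_mul, hx, one_pow]
  -- commutation of y ^ 4 etc.
  have hyx : ¬ Commute y⁻¹ x := by
    intro hc
    have := hc.inv_left
    rw [inv_inv] at this
    exact hcx this.symm
  -- the lines
  have L2 := line hf S hy hxy
  have L1 := line hf S (g := x * x) hy (by
    intro hc
    apply hcx
    have c1 : Commute (x * x) y := hc
    have c2 := c1.pow_left 3
    rwa [← pow_two, ← pow_mul, show 2 * 3 = 5 + 1 from rfl, pow_add, hx, one_mul, pow_one] at c2)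
  have L6 := line hf S (g := y⁻¹ * (x * x)) (h := x) hx (by
    intro hc
    apply hyx
    have c1 : Commute (y⁻¹ * (x * x)) x := hc
    have c2 := c1.mul_left (((Commute.refl x).mul_left (Commute.refl x)).inv_left)
    rwa [mul_inv_cancel_right] at c2)
  obtain ⟨w3, L3⟩ := line' hf S (g := y * x⁻¹) (h := x * (y * y)) (by
    intro hc
    have c1 : Commute (y * x⁻¹) (x * (y * y)) := hc
    have c2 : Commute (y * x⁻¹ * (x * (y * y))) (y * x⁻¹) := (Commute.refl _).mul_left c1.symm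
    have e : y * x⁻¹ * (x * (y * y)) = y ^ 3 := by simp [pow_succ, mul_assoc]
    rw [e] at c2
    have c3 : Commute y (y * x⁻¹) := by
      have := c2.pow_left 2
      rwa [← pow_mul, show 3 * 2 = 5 + 1 from rfl, pow_add, hy, one_mul, pow_one] at this
    have c4 : Commute y (y⁻¹ * (y * x⁻¹)) := ((Commute.refl y).inv_right).mul_right c3
    rw [inv_mul_cancel_left] at c4
    have := c4.inv_right
    rw [inv_inv] at this
    exact hcx this.symm)
  obtain ⟨w4, L4⟩ := line' hf S (g := y⁻¹ * (x⁻¹ * x⁻¹)) (h := x * y) (by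
    intro hc
    have c1 : Commute (y⁻¹ * (x⁻¹ * x⁻¹)) (x * y) := hc
    have c2 : Commute ((x * y) * (y⁻¹ * (x⁻¹ * x⁻¹))) (x * y) := (Commute.refl _).mul_left c1
    have e : (x * y) * (y⁻¹ * (x⁻¹ * x⁻¹)) = x⁻¹ := by simp [pow_succ, mul_assoc]
    rw [e] at c2
    have c3 : Commute x (x * y) := by
      have := c2.inv_left
      rwa [inv_inv] at this
    have c4 : Commute x (x⁻¹ * (x * y)) := ((Commute.refl x).inv_right).mul_right c3
    rw [inv_mul_cancel_left] at c4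
    exact hcx c4)
  obtain ⟨w5, L5⟩ := line' hf S (g := y * (x⁻¹ * x⁻¹)) (h := x * y⁻¹) (by
    intro hc
    have c1 : Commute (y * (x⁻¹ * x⁻¹)) (x * y⁻¹) := hc
    have c2 : Commute ((x * y⁻¹) * (y * (x⁻¹ * x⁻¹))) (x * y⁻¹) := (Commute.refl _).mul_left c1
    have e : (x * y⁻¹) * (y * (x⁻¹ * x⁻¹)) = x⁻¹ := by simp [pow_succ, mul_assoc]
    rw [e] at c2
    have c3 : Commute x (x * y⁻¹) := by
      have := c2.inv_left
      rwa [inv_inv] at this
    have c4 : Commute x (x⁻¹ * (x * y⁻¹)) := ((Commute.refl x).inv_right).mul_right c3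
    rw [inv_mul_cancel_left] at c4
    have := c4.inv_right
    rw [inv_inv] at this
    exact hcx this)
  -- evaluation
  rw [x0, h1, y3, y4] at L2
  rw [x20, y3, y4] at L1
  have a60 : s (y⁻¹ * (x * x)) = s (x * x * y⁻¹) := S.comm _ _
  have a61 : s (y⁻¹ * (x * x) * x) = -s (x * x * y) := by
    rw [← S.inv]
    congr 1
    have : y⁻¹ * (x * x) * x = y⁻¹ * x ^ 3 := by simp [pow_succ, mul_assoc]
    rw [this, x3]; group
  have a62 : s (y⁻¹ * (x * x) * x ^ 2) = -1 := by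
    rw [← h1, ← S.inv]
    congr 1
    have : y⁻¹ * (x * x) * x ^ 2 = y⁻¹ * x ^ 4 := by simp [pow_succ, mul_assoc]
    rw [this, x4]; group
  have a63 : s (y⁻¹ * (x * x) * x ^ 3) = 0 := by
    have : y⁻¹ * (x * x) * x ^ 3 = y⁻¹ * x ^ 5 := by simp [pow_succ, mul_assoc]
    rw [this, hx, mul_one, yi0]
  have a64 : s (y⁻¹ * (x * x) * x ^ 4) = s (x * y⁻¹) := by
    have : y⁻¹ * (x * x) * x ^ 4 = y⁻¹ * (x ^ 5 * x) := by simp [pow_succ, mul_assoc]
    rw [this, hx, one_mul, S.comm]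
  rw [a60, a61, a62, a63, a64] at L6
  have a30 : s (y * x⁻¹) = -s (x * y⁻¹) := by
    rw [← S.inv]; congr 1; group
  have a31 : s (y * x⁻¹ * (x * (y * y))) = 0 := by
    have : y * x⁻¹ * (x * (y * y)) = y * (y * y) := by simp [pow_succ, mul_assoc]
    rw [this, S.zero_iff]
    have e : y * (y * y) = y ^ 3 := by simp [pow_succ, mul_assoc]
    rw [e, ← pow_mul, mul_comm 3 5, pow_mul, hy, one_pow]
  have a32 : s (y * x⁻¹ * (x * (y * y)) ^ 2) = 0 := by
    have : y * x⁻¹ * (x * (y * y)) ^ 2 = (y ^ 3 * x) * y ^ 2 := by simp [pow_succ, mul_assoc]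
    rw [this, S.comm, ← mul_assoc, ← pow_add, hy, one_mul, x0]
  have a33 : s (y * x⁻¹ * (x * (y * y)) ^ 3) = s (x * x * y ^ 2) := by
    have : y * x⁻¹ * (x * (y * y)) ^ 3 = (y ^ 3 * (x * y ^ 2 * x)) * y ^ 2 := by simp [pow_succ, mul_assoc]
    rw [this, S.comm, ← mul_assoc, ← pow_add, hy, one_mul, S.comm, ← mul_assoc]
  have hA2 : x * (y * y) = x * y ^ 2 := by rw [pow_two]
  rw [a30, a31, a32, a33, zero_sub, zero_sub, hA2] at L3
  have a40 : s (y⁻¹ * (x⁻¹ * x⁻¹)) = -s (x * x * y) := by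
    rw [← S.inv]; congr 1; group
  have a41 : s (y⁻¹ * (x⁻¹ * x⁻¹) * (x * y)) = 0 := by
    have : y⁻¹ * (x⁻¹ * x⁻¹) * (x * y) = y⁻¹ * x⁻¹ * y⁻¹⁻¹ := by simp [pow_succ, mul_assoc]
    rw [this, hcj, xi0]
  have a42 : s (y⁻¹ * (x⁻¹ * x⁻¹) * (x * y) ^ 2) = 0 := by
    have : y⁻¹ * (x⁻¹ * x⁻¹) * (x * y) ^ 2 = y⁻¹ * (x⁻¹ * y * x⁻¹⁻¹) * y⁻¹⁻¹ := by simp [pow_succ, mul_assoc]
    rw [this, hcj, hcj, y0]
  have a43 : s (y⁻¹ * (x⁻¹ * x⁻¹) * (x * y) ^ 3) = s (x * y ^ 2) := by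
    have : y⁻¹ * (x⁻¹ * x⁻¹) * (x * y) ^ 3 =
        y⁻¹ * (x⁻¹ * (y * (x * y ^ 2) * y⁻¹) * x⁻¹⁻¹) * y⁻¹⁻¹ := by simp [pow_succ, mul_assoc]
    rw [this, hcj, hcj, hcj]
  rw [a40, a41, a42, a43, h1, zero_sub, zero_sub] at L4
  have a50 : s (y * (x⁻¹ * x⁻¹)) = -s (x * x * y⁻¹) := by
    rw [← S.inv]; congr 1; group
  have a51 : s (y * (x⁻¹ * x⁻¹) * (x * y⁻¹)) = 0 := by
    have : y * (x⁻¹ * x⁻¹) * (x * y⁻¹) = y * x⁻¹ * y⁻¹ := by simp [pow_succ, mul_assoc]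
    rw [this, hcj, xi0]
  have a52 : s (y * (x⁻¹ * x⁻¹) * (x * y⁻¹) ^ 2) = 0 := by
    have : y * (x⁻¹ * x⁻¹) * (x * y⁻¹) ^ 2 = y * (x⁻¹ * y⁻¹ * x⁻¹⁻¹) * y⁻¹ := by simp [pow_succ, mul_assoc]
    rw [this, hcj, hcj, yi0]
  have a53 : s (y * (x⁻¹ * x⁻¹) * (x * y⁻¹) ^ 3) = s (x * (y⁻¹ * y⁻¹)) := by
    have : y * (x⁻¹ * x⁻¹) * (x * y⁻¹) ^ 3 =
        y * (x⁻¹ * (y⁻¹ * (x * (y⁻¹ * y⁻¹)) * y⁻¹⁻¹) * x⁻¹⁻¹) * y⁻¹ := by simp [pow_succ, mul_assoc]
    rw [this, hcj, hcj, hcj]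
  rw [a50, a51, a52, a53, zero_sub, zero_sub] at L5
  rcases comb _ _ _ L2 _ _ L6 _ _ L1 with h | h | h
  · have := h (-(w3 - s (x * y ^ 2)))
    rw [neg_neg, sub_add_cancel, L3] at this
    exact Bool.false_ne_true this
  · have := h (-(w4 - 1))
    rw [neg_neg, sub_add_cancel, L4] at this
    exact Bool.false_ne_true this
  · have := h (-(w5 - s (x * y⁻¹)))
    rw [neg_neg, sub_add_cancel, L5] at this
    exact Bool.false_ne_true this

end

end H10.FA
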