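import Mathlib

/-!
# Groups with an involution in which the centralizers are finite
-/

set_option autoImplicit false

universe u

namespace H10.FA

section

variable {G : Type u} [Group G]

/-- the elements conjugating one element to another form a finite set if the centralizer is
finite -/
theorem conj_finite {w w' : G} (hw : {g : G | g * w = w * g}.Finite) :
    {g : G | g * w * g⁻¹ = w'}.Finite := by
  by_cases h : ∃ g0 : G, g0 * w * g0⁻¹ = w'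
  · obtain ⟨g0, h0⟩ := h
    refine (hw.image (fun g => g0 * g)).subset ?_
    intro g hg
    refine ⟨g0⁻¹ * g, ?_, by group⟩
    have hg' : g * w * g⁻¹ = g0 * w * g0⁻¹ := by rw [h0]; exact hg
    show g0⁻¹ * g * w = w * (g0⁻¹ * g)
    calc g0⁻¹ * g * w = g0⁻¹ * (g * w * g⁻¹) * g := by group
      _ = g0⁻¹ * (g0 * w * g0⁻¹) * g := by rw [hg']
      _ = w * (g0⁻¹ * g) := by group
  · push Not at h
    convert Set.finite_empty
    ext g
    simp [h g]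

/-- for all but finitely many `g` the product of `t` and its conjugate has order dividing five -/
theorem odd_cofinite (hG : ∀ g : G, g ^ 20 = 1)
    (hc : ∀ g : G, g ≠ 1 → {h : G | h * g = g * h}.Finite) {t : G} (ht : t * t = 1)
    (ht1 : t ≠ 1) : {g : G | (t * (g⁻¹ * t * g)) ^ 5 ≠ 1}.Finite := by
  have hC := hc t ht1
  have hfin : (⋃ p ∈ ({h : G | h * t = t * h} ×ˢ {h : G | h * t = t * h}) ∩
      {p : G × G | p.1 ≠ 1}, {g : G | g * p.1 * g⁻¹ = p.2}).Finite := by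
    apply Set.Finite.biUnion
    · exact (hC.prod hC).subset Set.inter_subset_left
    · rintro ⟨w, w'⟩ ⟨-, hw⟩
      exact conj_finite (hc w hw)
  refine hfin.subset ?_
  intro g hg
  set a : G := t * (g⁻¹ * t * g) with ha
  have hta : t * a * t = a⁻¹ := by
    rw [ha, eq_comm, inv_eq_iff_mul_eq_one]
    have e : t * (g⁻¹ * t * g) * (t * (t * (g⁻¹ * t * g)) * t) =
        t * (g⁻¹ * t * g) * ((t * t) * (g⁻¹ * t * g) * t) := by group
    rw [e, ht, one_mul]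
    have e2 : t * (g⁻¹ * t * g) * (g⁻¹ * t * g * t) = t * (g⁻¹ * (t * t) * g) * t := by group
    rw [e2, ht]
    have e3 : t * (g⁻¹ * 1 * g) * t = t * t := by group
    rw [e3, ht]
  have hpow : ∀ n : ℕ, t * a ^ n * t = (a ^ n)⁻¹ := by
    intro n
    have hti : t⁻¹ = t := by rw [inv_eq_iff_mul_eq_one]; exact ht
    have : t * a ^ n * t = (t * a * t⁻¹) ^ n := by rw [conj_pow, hti]
    rw [this, hti, hta, inv_pow]
  -- an involution in the group generated by `a`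
  have hg5 : a ^ 5 ≠ 1 := hg
  obtain ⟨n, hn1, hn2⟩ : ∃ n : ℕ, a ^ n ≠ 1 ∧ a ^ n * a ^ n = 1 := by
    by_cases h10 : a ^ 10 = 1
    · exact ⟨5, hg5, by rw [← pow_add]; exact h10⟩
    · exact ⟨10, h10, by rw [← pow_add]; exact hG a⟩
  have hwt : a ^ n * t = t * a ^ n := by
    have h1 := hpow n
    rw [inv_eq_of_mul_eq_one_left hn2] at h1
    have h2 : t * (t * a ^ n * t) = t * a ^ n := by rw [h1]
    rw [← h2]
    have e : t * (t * a ^ n * t) = (t * t) * a ^ n * t := by group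
    rw [e, ht, one_mul]
  have hws : a ^ n * (g⁻¹ * t * g) = (g⁻¹ * t * g) * a ^ n := by
    have e : g⁻¹ * t * g = t * a := by
      rw [ha, ← mul_assoc, ht, one_mul]
    rw [e, ← mul_assoc, hwt, mul_assoc, mul_assoc, ← pow_succ, ← pow_succ']
  simp only [Set.mem_iUnion]
  refine ⟨(a ^ n, g * a ^ n * g⁻¹), ⟨⟨?_, ?_⟩, hn1⟩, rfl⟩
  · exact hwt
  · show g * a ^ n * g⁻¹ * t = t * (g * a ^ n * g⁻¹)
    calc g * a ^ n * g⁻¹ * t = g * (a ^ n * (g⁻¹ * t * g)) * g⁻¹ := by group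
      _ = g * ((g⁻¹ * t * g) * a ^ n) * g⁻¹ := by rw [hws]
      _ = t * (g * a ^ n * g⁻¹) := by group

/-- for all but finitely many `g` there is a decomposition -/
theorem decomp (hG : ∀ g : G, g ^ 20 = 1)
    (hc : ∀ g : G, g ≠ 1 → {h : G | h * g = g * h}.Finite) {t : G} (ht : t * t = 1)
    (ht1 : t ≠ 1) : {g : G | ¬ ∃ c : G, c * t = t * c ∧ t * g * t = c * g⁻¹ * c}.Finite := by
  refine (odd_cofinite hG hc ht ht1).subset ?_
  intro g hg h5
  apply hg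
  set a : G := t * (g⁻¹ * t * g) with ha
  have hti : t⁻¹ = t := by rw [inv_eq_iff_mul_eq_one]; exact ht
  have hta : t * a * t = a⁻¹ := by
    rw [ha, eq_comm, inv_eq_iff_mul_eq_one]
    have e : t * (g⁻¹ * t * g) * (t * (t * (g⁻¹ * t * g)) * t) =
        t * (g⁻¹ * t * g) * ((t * t) * (g⁻¹ * t * g) * t) := by group
    rw [e, ht, one_mul]
    have e2 : t * (g⁻¹ * t * g) * (g⁻¹ * t * g * t) = t * (g⁻¹ * (t * t) * g) * t := by group
    rw [e2, ht]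
    have e3 : t * (g⁻¹ * 1 * g) * t = t * t := by group
    rw [e3, ht]
  have htb : t * a ^ 3 * t = (a ^ 3)⁻¹ := by
    have : t * a ^ 3 * t = (t * a * t⁻¹) ^ 3 := by rw [conj_pow, hti]
    rw [this, hti, hta, inv_pow]
  have hbb : a ^ 3 * a ^ 3 = a := by
    rw [← pow_add, show 3 + 3 = 5 + 1 from rfl, pow_add, h5, one_mul, pow_one]
  have hga : g⁻¹ * t * g = t * a := by
    rw [ha, ← mul_assoc, ht, one_mul]
  generalize a ^ 3 = b at htb hbb
  -- `c = g b⁻¹`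
  have hbt : b⁻¹ * t = t * b := by
    rw [← htb]
    have e : t * b * t * t = t * b * (t * t) := by group
    rw [e, ht, mul_one]
  refine ⟨g * b⁻¹, ?_, ?_⟩
  · have h1 : b⁻¹ * t * b = g⁻¹ * t * g := by
      rw [hbt, mul_assoc, hbb, hga]
    have h2 : (g * b⁻¹) * t * (g * b⁻¹)⁻¹ = t := by
      calc (g * b⁻¹) * t * (g * b⁻¹)⁻¹ = g * (b⁻¹ * t * b) * g⁻¹ := by group
        _ = g * (g⁻¹ * t * g) * g⁻¹ := by rw [h1]
        _ = t := by group
    calc g * b⁻¹ * t = ((g * b⁻¹) * t * (g * b⁻¹)⁻¹) * (g * b⁻¹) := by group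
      _ = t * (g * b⁻¹) := by rw [h2]
  · -- `t g t = t c b t = c (t b t) = c b⁻¹`
    have h1 : b⁻¹ * t * b = g⁻¹ * t * g := by
      rw [hbt, mul_assoc, hbb, hga]
    have h2 : (g * b⁻¹) * t = t * (g * b⁻¹) := by
      have h2' : (g * b⁻¹) * t * (g * b⁻¹)⁻¹ = t := by
        calc (g * b⁻¹) * t * (g * b⁻¹)⁻¹ = g * (b⁻¹ * t * b) * g⁻¹ := by group
          _ = g * (g⁻¹ * t * g) * g⁻¹ := by rw [h1]
          _ = t := by group
      calc g * b⁻¹ * t = ((g * b⁻¹) * t * (g * b⁻¹)⁻¹) * (g * b⁻¹) := by group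
        _ = t * (g * b⁻¹) := by rw [h2']
    calc t * g * t = (t * (g * b⁻¹)) * b * t := by group
      _ = (g * b⁻¹) * t * b * t := by rw [h2]
      _ = (g * b⁻¹) * (t * b * t) := by group
      _ = (g * b⁻¹) * b⁻¹ := by rw [htb]
      _ = g * b⁻¹ * g⁻¹ * (g * b⁻¹) := by group

/-- a group of exponent dividing twenty with an involution, in which the centralizers of the
nontrivial elements are finite, is finite -/
theorem finite_of_centralizers (hG : ∀ g : G, g ^ 20 = 1)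
    (hc : ∀ g : G, g ≠ 1 → {h : G | h * g = g * h}.Finite) {t : G} (ht : t * t = 1)
    (ht1 : t ≠ 1) : Finite G := by
  by_contra hinf
  rw [not_finite_iff_infinite] at hinf
  have hC := hc t ht1
  have hti : t⁻¹ = t := by rw [inv_eq_iff_mul_eq_one]; exact ht
  let U : Ultrafilter G := Filter.hyperfilter G
  have hcof : ∀ s : Set G, s.Finite → ∀ᶠ v in (U : Filter G), v ∉ s := fun s hs =>
    Filter.compl_mem_hyperfilter_of_finite hs
  -- for every `u` there is `c`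
  have h1 : ∀ u : G, ∃ c ∈ {h : G | h * t = t * h},
      ∀ᶠ v in (U : Filter G), t * (u⁻¹ * v) * t = c * (u⁻¹ * v)⁻¹ * c := by
    intro u
    have h2 : (⋃ c ∈ {h : G | h * t = t * h},
        {v : G | t * (u⁻¹ * v) * t = c * (u⁻¹ * v)⁻¹ * c}) ∈ U := by
      have h3 := hcof _ ((decomp hG hc ht ht1).image (fun v => u * v))
      filter_upwards [h3] with v hv
      by_contra hv'
      apply hv
      refine ⟨u⁻¹ * v, ?_, by group⟩
      rintro ⟨c, hc1, hc2⟩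
      apply hv'
      simp only [Set.mem_iUnion]
      exact ⟨c, hc1, hc2⟩
    obtain ⟨c, hc1, hc2⟩ := (Ultrafilter.finite_biUnion_mem_iff hC).1 h2
    exact ⟨c, hc1, hc2⟩
  obtain ⟨c, hcC, hcU⟩ : ∃ c ∈ {h : G | h * t = t * h}, ∀ᶠ u in (U : Filter G),
      ∀ᶠ v in (U : Filter G), t * (u⁻¹ * v) * t = c * (u⁻¹ * v)⁻¹ * c := by
    have h2 : (⋃ c ∈ {h : G | h * t = t * h},
        {u : G | ∀ᶠ v in (U : Filter G), t * (u⁻¹ * v) * t = c * (u⁻¹ * v)⁻¹ * c}) ∈ U := by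
      have : (⋃ c ∈ {h : G | h * t = t * h},
        {u : G | ∀ᶠ v in (U : Filter G), t * (u⁻¹ * v) * t = c * (u⁻¹ * v)⁻¹ * c}) = Set.univ := by
        ext u
        simp only [Set.mem_iUnion, Set.mem_univ, iff_true]
        obtain ⟨c, hc1, hc2⟩ := h1 u
        exact ⟨c, hc1, hc2⟩
      rw [this]
      exact Filter.univ_mem
    exact (Ultrafilter.finite_biUnion_mem_iff hC).1 h2
  -- the key relation
  have key : ∀ u1 u2 u3 u4 : G,
      t * (u1⁻¹ * u2) * t = c * (u1⁻¹ * u2)⁻¹ * c → t * (u1⁻¹ * u3) * t = c * (u1⁻¹ * u3)⁻¹ * c →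
      t * (u2⁻¹ * u3) * t = c * (u2⁻¹ * u3)⁻¹ * c → t * (u1⁻¹ * u4) * t = c * (u1⁻¹ * u4)⁻¹ * c →
      t * (u2⁻¹ * u4) * t = c * (u2⁻¹ * u4)⁻¹ * c →
      (u3⁻¹ * u4) * ((c * c)⁻¹ * (u1⁻¹ * u2)) = ((c * c)⁻¹ * (u1⁻¹ * u2)) * (u3⁻¹ * u4) := by
    intro u1 u2 u3 u4 h12 h13 h23 h14 h24
    have rel : ∀ v : G, t * (u1⁻¹ * v) * t = c * (u1⁻¹ * v)⁻¹ * c →
        t * (u2⁻¹ * v) * t = c * (u2⁻¹ * v)⁻¹ * c →
        (u2⁻¹ * v) * ((c * c)⁻¹ * (u1⁻¹ * u2)) = (u1⁻¹ * u2) * (u2⁻¹ * v) := by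
      intro v hv1 hv2
      have e1 : t * (u1⁻¹ * v) * t = (t * (u1⁻¹ * u2) * t) * (t * (u2⁻¹ * v) * t) := by
        calc t * (u1⁻¹ * v) * t = t * (u1⁻¹ * u2) * (u2⁻¹ * v) * t := by group
          _ = t * (u1⁻¹ * u2) * (t * t) * (u2⁻¹ * v) * t := by rw [ht, mul_one]
          _ = _ := by group
      rw [hv1, h12, hv2] at e1
      -- `c E13⁻¹ c = c E12⁻¹ c c E23⁻¹ c`
      have e2 : (u1⁻¹ * v)⁻¹ = (u1⁻¹ * u2)⁻¹ * (c * c) * (u2⁻¹ * v)⁻¹ := by
        calc (u1⁻¹ * v)⁻¹ = c⁻¹ * (c * (u1⁻¹ * v)⁻¹ * c) * c⁻¹ := by group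
          _ = c⁻¹ * ((c * (u1⁻¹ * u2)⁻¹ * c) * (c * (u2⁻¹ * v)⁻¹ * c)) * c⁻¹ := by rw [e1]
          _ = _ := by group
      have e3 : u1⁻¹ * v = (u2⁻¹ * v) * (c * c)⁻¹ * (u1⁻¹ * u2) := by
        have := congrArg (·⁻¹) e2
        simp only [inv_inv, mul_inv_rev] at this
        rw [this]
        group
      calc (u2⁻¹ * v) * ((c * c)⁻¹ * (u1⁻¹ * u2)) = (u2⁻¹ * v) * (c * c)⁻¹ * (u1⁻¹ * u2) := by
            group
        _ = u1⁻¹ * v := e3.symm
        _ = (u1⁻¹ * u2) * (u2⁻¹ * v) := by group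
    have r3 := rel u3 h13 h23
    have r4 := rel u4 h14 h24
    generalize (c * c)⁻¹ * (u1⁻¹ * u2) = k at r3 r4
    generalize u1⁻¹ * u2 = e at r3 r4
    have e1 : e = (u2⁻¹ * u3) * k * (u2⁻¹ * u3)⁻¹ := by rw [r3]; group
    have e2 : e = (u2⁻¹ * u4) * k * (u2⁻¹ * u4)⁻¹ := by rw [r4]; group
    calc (u3⁻¹ * u4) * k = (u2⁻¹ * u3)⁻¹ * ((u2⁻¹ * u4) * k * (u2⁻¹ * u4)⁻¹) * (u2⁻¹ * u4) := by
          group
      _ = (u2⁻¹ * u3)⁻¹ * ((u2⁻¹ * u3) * k * (u2⁻¹ * u3)⁻¹) * (u2⁻¹ * u4) := by rw [← e2, ← e1]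
      _ = k * (u3⁻¹ * u4) := by group
  -- choose the elements
  obtain ⟨u1, hu1⟩ := hcU.exists
  obtain ⟨u2, ⟨h12, hu2⟩, hne⟩ := ((hu1.and hcU).and
    (hcof _ (Set.finite_singleton (u1 * (c * c))))).exists
  obtain ⟨u3, h13, h23⟩ := (hu1.and hu2).exists
  have hk : (c * c)⁻¹ * (u1⁻¹ * u2) ≠ 1 := by
    intro h
    apply hne
    rw [Set.mem_singleton_iff]
    have h2 : u1⁻¹ * u2 = c * c := by
      rw [inv_mul_eq_one] at h
      exact h.symm
    rw [← h2]; group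
  obtain ⟨u4, ⟨h14, h24⟩, hu4⟩ := ((hu1.and hu2).and
    (hcof _ ((hc _ hk).image (fun v => u3 * v)))).exists
  apply hu4
  exact ⟨u3⁻¹ * u4, key u1 u2 u3 u4 h12 h13 h23 h14 h24, by group⟩

end

end H10.FA
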