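import Mathlib
import Pool.Agent.H10.FA.Even
import Pool.Agent.H10.FA.Shunkov

/-!
# Centralizers in groups of exponent twenty acting freely
-/

set_option autoImplicit false

universe u v

namespace H10.FA

open Q6.FreeAct

section

variable {G : Type v} {V : Type u} [Group G] [AddCommGroup V] [DistribMulAction G V]
  [Nontrivial V]

/-- products of elements of order five -/
theorem prod_ten (hf : IsFree G V) {z : G} {s : G → ZMod 4} (S : SF z s) (g h : G)
    (hg : g ^ 5 = 1) (hh : h ^ 5 = 1) : (g * h) ^ 10 = 1 := by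
  by_cases hc : g * h = h * g
  · have : Commute g h := hc
    rw [this.mul_pow, show 10 = 5 * 2 from rfl, pow_mul, pow_mul, hg, hh, one_pow, one_mul]
  · have h1 : s (g * h) ≠ 1 := fun h1 => no_one hf S hg hh hc h1
    have h3 : s (g * h) ≠ 3 := fun h3 => no_one hf S.swap hg hh hc (by
      show -s (g * h) = 1
      rw [h3]; decide)
    have h2 : s (g * h) = 0 ∨ s (g * h) = 2 := by
      revert h1 h3
      generalize s (g * h) = n
      revert n
      decide
    rw [show 10 = 5 * 2 from rfl, pow_mul, S.pow]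
    rcases h2 with h | h
    · rw [h]; simp
    · rw [h, ← pow_mul]
      exact S.z4

/-- a group acting freely in which the fifth powers lie in a central cyclic subgroup of order four
is finite -/
theorem finite_of_SF (hf : IsFree G V) {z : G} {s : G → ZMod 4} (S : SF z s) : Finite G := by
  obtain ⟨T, -, -, hcard, hmem⟩ := exists_T' (V := V) hf (prod_ten hf S)
  have hTf : Finite T := by
    apply Nat.finite_of_card_ne_zero
    rcases hcard with h | h <;> rw [h] <;> norm_num
  have hsur : Function.Surjective (fun p : ZMod 4 × T => z ^ p.1.val * (p.2 : G)) := by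
    intro g
    refine ⟨(s g, ⟨z ^ (-s g).val * g, ?_⟩), ?_⟩
    · rw [hmem, ← S.zero_iff, S.shift, neg_add_cancel]
    · show z ^ (s g).val * (z ^ (-s g).val * g) = g
      rw [← mul_assoc, ← zp_add S.z4, add_neg_cancel]
      simp
  exact Finite.of_surjective _ hsur

/-- there is at most one involution -/
theorem inv_unique (hf : IsFree G V) {t z : G} (ht : t ^ 2 = 1) (ht1 : t ≠ 1) (hz : z ^ 2 = 1)
    (hz1 : z ≠ 1) : t = z :=
  faithful (V := V) hf fun v => by rw [no_two hf ht ht1, no_two hf hz hz1]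

/-- commuting elements of order dividing four -/
theorem comm4 (hf : IsFree G V) {i a : G} (hi : i ^ 4 = 1) (hi2 : i ^ 2 ≠ 1) (ha : a ^ 4 = 1)
    (hai : a * i = i * a) : ∃ n : ZMod 4, a = i ^ n.val := by
  have h22 : ∀ g : G, g ^ 4 = 1 → (g ^ 2) ^ 2 = 1 := fun g hg => by rw [← pow_mul]; exact hg
  by_cases h2 : a ^ 2 = 1
  · by_cases h1 : a = 1
    · exact ⟨0, by rw [h1]; simp⟩
    · refine ⟨2, ?_⟩
      exact inv_unique hf h2 h1 (h22 i hi) hi2
  · have e : a ^ 2 = i ^ 2 := inv_unique hf (h22 a ha) h2 (h22 i hi) hi2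
    have hc : Commute a i⁻¹ := (show Commute a i from hai).inv_right
    have h3 : (a * i⁻¹) ^ 2 = 1 := by
      rw [hc.mul_pow, e, inv_pow, mul_inv_cancel]
    by_cases h4 : a * i⁻¹ = 1
    · refine ⟨1, ?_⟩
      rw [mul_inv_eq_one] at h4
      rw [h4]
      exact (pow_one i).symm
    · refine ⟨3, ?_⟩
      have h5 := inv_unique hf h3 h4 (h22 i hi) hi2
      rw [mul_inv_eq_iff_eq_mul] at h5
      rw [h5, ← pow_succ]
      rfl

/-- the centralizer of an element of order four is finite -/
theorem cent_four (hf : IsFree G V) (hG : ∀ g : G, g ^ 20 = 1) {i : G} (hi : i ^ 4 = 1)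
    (hi2 : i ^ 2 ≠ 1) : {h : G | h * i = i * h}.Finite := by
  let C : Subgroup G := Subgroup.centralizer {i}
  have hmem : ∀ g : G, g ∈ C ↔ g * i = i * g := by
    intro g
    rw [Subgroup.mem_centralizer_iff]
    constructor
    · intro h
      exact (h i rfl).symm
    · intro h w hw
      rw [Set.mem_singleton_iff] at hw
      rw [hw]; exact h.symm
  have hfC : IsFree C V := by
    intro g hg w hw
    exact hf g.1 (fun h => hg (Subtype.ext h)) w hw
  let z : C := ⟨i, (hmem i).2 rfl⟩
  have hex : ∀ g : C, ∃ n : ZMod 4, g ^ 5 = z ^ n.val := by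
    intro g
    obtain ⟨n, hn⟩ := comm4 (i := i) (a := (g : G) ^ 5) hf hi hi2 (by rw [← pow_mul]; exact hG _)
      (((show Commute (g : G) i from (hmem _).1 g.2)).pow_left 5).eq
    exact ⟨n, Subtype.ext hn⟩
  choose s hs using hex
  have S : SF z s := {
    zc := fun g => Subtype.ext ((hmem _).1 g.2).symm
    z4 := Subtype.ext hi
    z2 := fun h => hi2 (congrArg Subtype.val h)
    pow := hs }
  have hfin : Finite C := finite_of_SF (V := V) hfC S
  have : (C : Set G).Finite := Set.toFinite _
  refine this.subset ?_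
  intro g hg
  exact (hmem g).2 hg

/-- the centralizer of an element of order five is finite -/
theorem cent_five (hf : IsFree G V) (hG : ∀ g : G, g ^ 20 = 1) {x : G} (hx : x ^ 5 = 1)
    (hx1 : x ≠ 1) : {h : G | h * x = x * h}.Finite := by
  -- the finite set of signs times powers of `x`
  have hE : {e : G | e ^ 2 = 1}.Finite := by
    by_cases h : ∃ t : G, t ^ 2 = 1 ∧ t ≠ 1
    · obtain ⟨t, ht, ht1⟩ := h
      refine (Set.toFinite {1, t}).subset ?_
      intro e he
      by_cases he1 : e = 1
      · exact Or.inl he1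
      · exact Or.inr (inv_unique (V := V) hf he he1 ht ht1)
    · push Not at h
      refine (Set.finite_singleton (1 : G)).subset ?_
      intro e he
      exact h e he
  have hX : ((Subgroup.zpowers x : Subgroup G) : Set G).Finite := by
    have : Finite (Subgroup.zpowers x) := by
      apply Nat.finite_of_card_ne_zero
      rw [Nat.card_zpowers]
      intro h0
      rw [orderOf_eq_zero_iff'] at h0
      exact h0 5 (by norm_num) hx
    exact Set.toFinite _
  have hEc : ∀ e : G, e ^ 2 = 1 → ∀ g : G, e * g = g * e := by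
    intro e he g
    by_cases he1 : e = 1
    · rw [he1, one_mul, mul_one]
    · exact (inv_of (V := V) hf he he1).comm g
  -- fourth powers lie in the group generated by `x`
  have h4 : ∀ g : G, g * x = x * g → g ^ 4 ∈ Subgroup.zpowers x := by
    intro g hg
    apply mem_zpowers (V := V) hf hx (by rw [← pow_mul]; exact hG g) _ hx1
    exact ((show Commute g x from hg).pow_left 4).symm.eq
  have hXc : ∀ w ∈ Subgroup.zpowers x, ∀ g : G, g * x = x * g → w * g = g * w := by
    intro w hw g hg
    obtain ⟨k, rfl⟩ := hw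
    exact ((show Commute x g from hg.symm).zpow_left k).eq
  by_cases hj : ∃ j : G, j * x = x * j ∧ j ^ 4 = 1 ∧ j ^ 2 ≠ 1
  · obtain ⟨j, hjx, hj4, hj2⟩ := hj
    have hCj := cent_four (V := V) hf hG hj4 hj2
    -- the set of the conjugates
    have hfin : {w : G | ∃ e ∈ {e : G | e ^ 2 = 1}, ∃ y ∈ ((Subgroup.zpowers x : Subgroup G) : Set G),
        w = e * y * j}.Finite := by
      refine ((hE.prod hX).image (fun p : G × G => p.1 * p.2 * j)).subset ?_
      rintro w ⟨e, he, y, hy, rfl⟩
      exact ⟨(e, y), ⟨he, hy⟩, rfl⟩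
    have hpre := hfin.preimage' (f := fun g : G => g * j * g⁻¹) (fun w _ => by
      exact conj_finite hCj)
    refine hpre.subset ?_
    intro g hg
    have hg' : g * x = x * g := hg
    show ∃ e ∈ {e : G | e ^ 2 = 1}, ∃ y ∈ ((Subgroup.zpowers x : Subgroup G) : Set G),
        g * j * g⁻¹ = e * y * j
    -- `g = a c` with `a = g ^ 5`, `c = g ^ 16`
    have hax : g ^ 5 * x = x * g ^ 5 := ((show Commute g x from hg').pow_left 5).eq
    have hc : g ^ 16 ∈ Subgroup.zpowers x := by
      rw [show 16 = 4 * 4 from rfl, pow_mul]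
      exact pow_mem (h4 g hg') 4
    have hgac : g = g ^ 5 * g ^ 16 := by
      rw [← pow_add, show 5 + 16 = 20 + 1 from rfl, pow_add, hG, one_mul, pow_one]
    have ha4 : (g ^ 5) ^ 4 = 1 := by rw [← pow_mul]; exact hG g
    generalize g ^ 5 = a at hax hgac ha4
    generalize g ^ 16 = c at hc hgac
    have hcj : c * j = j * c := hXc c hc j hjx
    have hpx : (a * j) * x = x * (a * j) := by rw [mul_assoc, hjx, ← mul_assoc, hax, mul_assoc]
    have he1 : ((a * j) ^ 10) ^ 2 = 1 := by rw [← pow_mul]; exact hG _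
    have hea : (a ^ 2) ^ 2 = 1 := by rw [← pow_mul]; exact ha4
    have hej : (j ^ 2) ^ 2 = 1 := by rw [← pow_mul]; exact hj4
    have c1 := hEc _ he1
    have ca := hEc _ hea
    have cj := hEc _ hej
    have hy1 : ((a * j) ^ 8)⁻¹ ∈ Subgroup.zpowers x := by
      apply inv_mem
      rw [show 8 = 4 * 2 from rfl, pow_mul]
      exact pow_mem (h4 _ hpx) 2
    have hsq : (a * j) * (a * j) = (a * j) ^ 10 * ((a * j) ^ 8)⁻¹ := by
      rw [eq_mul_inv_iff_mul_eq, ← pow_two, ← pow_add]
    refine ⟨(a * j) ^ 10 * (j ^ 2 * a ^ 2), ?_, ((a * j) ^ 8)⁻¹, hy1, ?_⟩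
    · show ((a * j) ^ 10 * (j ^ 2 * a ^ 2)) ^ 2 = 1
      rw [(show Commute ((a * j) ^ 10) (j ^ 2 * a ^ 2) from c1 _).mul_pow,
        (show Commute (j ^ 2) (a ^ 2) from cj _).mul_pow, he1, hea, hej, one_mul, one_mul]
    · have e1 : g * j * g⁻¹ = a * j * a⁻¹ := by
        rw [hgac]
        calc a * c * j * (a * c)⁻¹ = a * (c * j) * (a * c)⁻¹ := by group
          _ = a * (j * c) * (a * c)⁻¹ := by rw [hcj]
          _ = a * j * a⁻¹ := by group
      rw [e1]
      have e2 : a * j * a⁻¹ = (a * j) * (a * j) * j⁻¹ * (a ^ 2)⁻¹ := by group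
      have e3 : j⁻¹ = j ^ 2 * j := by
        rw [inv_eq_iff_mul_eq_one, ← pow_succ, ← pow_succ']; exact hj4
      have e4 : (a ^ 2)⁻¹ = a ^ 2 := by
        rw [inv_eq_iff_mul_eq_one, ← pow_two]; exact hea
      rw [e2, hsq, e3, e4]
      generalize (a * j) ^ 10 = e at c1
      generalize ((a * j) ^ 8)⁻¹ = y
      generalize j ^ 2 = f at cj
      generalize a ^ 2 = k at ca
      calc e * y * (f * j) * k = e * (y * f) * (j * k) := by group
        _ = e * (f * y) * (k * j) := by rw [cj y, ca j]
        _ = e * f * (y * k) * j := by group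
        _ = e * f * (k * y) * j := by rw [ca y]
        _ = e * (f * k) * y * j := by group
  · push Not at hj
    have hfin : {w : G | ∃ e ∈ {e : G | e ^ 2 = 1}, ∃ y ∈ ((Subgroup.zpowers x : Subgroup G) : Set G),
        w = e * y}.Finite := by
      refine ((hE.prod hX).image (fun p : G × G => p.1 * p.2)).subset ?_
      rintro w ⟨e, he, y, hy, rfl⟩
      exact ⟨(e, y), ⟨he, hy⟩, rfl⟩
    refine hfin.subset ?_
    intro g hg
    have hg' : g * x = x * g := hg
    refine ⟨g ^ 5, ?_, g ^ 16, ?_, ?_⟩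
    · exact hj (g ^ 5) ((show Commute g x from hg').pow_left 5).eq (by rw [← pow_mul]; exact hG g)
    · rw [show 16 = 4 * 4 from rfl, pow_mul]
      exact pow_mem (h4 g hg') 4
    · rw [← pow_add, show 5 + 16 = 20 + 1 from rfl, pow_add, hG, one_mul, pow_one]

end

end H10.FA
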