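import Mathlib
import Pool.Agent.H10.FA.Cent

/-!
# Groups of exponent twenty acting freely are finite
-/

set_option autoImplicit false

universe u v

namespace H10.FA

open Q6.FreeAct

section

variable {G : Type v} {V : Type u} [Group G] [AddCommGroup V] [DistribMulAction G V]
  [Nontrivial V]

/-- the elements of order dividing two form a finite set -/
theorem finite_two (hf : IsFree G V) : {e : G | e ^ 2 = 1}.Finite := by
  by_cases h : ∃ t : G, t ^ 2 = 1 ∧ t ≠ 1
  · obtain ⟨t, ht, ht1⟩ := h
    refine (Set.toFinite {1, t}).subset ?_
    intro e he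
    by_cases he1 : e = 1
    · exact Or.inl he1
    · exact Or.inr (inv_unique (V := V) hf he he1 ht ht1)
  · push Not at h
    refine (Set.finite_singleton (1 : G)).subset ?_
    intro e he
    exact h e he

/-- the case without elements of order four -/
theorem finite_ten (hf : IsFree G V) (hG : ∀ g : G, g ^ 10 = 1) : Finite G := by
  obtain ⟨T, -, -, hcard, hmem⟩ := exists_T' (V := V) hf (fun g h _ _ => hG (g * h))
  have hTf : Finite T := by
    apply Nat.finite_of_card_ne_zero
    rcases hcard with h | h <;> rw [h] <;> norm_num
  have hE : Finite {e : G | e ^ 2 = 1} := (finite_two (V := V) hf).to_subtype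
  have hsur : Function.Surjective (fun p : {e : G | e ^ 2 = 1} × T => (p.1 : G) * (p.2 : G)) := by
    intro g
    refine ⟨(⟨g ^ 5, ?_⟩, ⟨g ^ 6, ?_⟩), ?_⟩
    · show (g ^ 5) ^ 2 = 1
      rw [← pow_mul]; exact hG g
    · rw [hmem, ← pow_mul, show 6 * 5 = 10 * 3 from rfl, pow_mul, hG, one_pow]
    · show g ^ 5 * g ^ 6 = g
      rw [← pow_add, show 5 + 6 = 10 + 1 from rfl, pow_add, hG, one_mul, pow_one]
  exact Finite.of_surjective _ hsur

/-- the centralizers of the elements which are not central are finite -/
theorem cent_finite (hf : IsFree G V) (hG : ∀ g : G, g ^ 20 = 1) {g : G}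
    (hg : g ∉ Subgroup.center G) : {h : G | h * g = g * h}.Finite := by
  by_cases h4 : g ^ 4 = 1
  · by_cases h2 : g ^ 2 = 1
    · exfalso
      apply hg
      rw [Subgroup.mem_center_iff]
      intro h
      by_cases h1 : g = 1
      · rw [h1, mul_one, one_mul]
      · exact ((inv_of (V := V) hf h2 h1).comm h).symm
    · exact cent_four (V := V) hf hG h4 h2
  · refine (cent_five (V := V) hf hG (x := g ^ 4) (by rw [← pow_mul]; exact hG g) h4).subset ?_
    intro h hh
    exact ((show Commute h g from hh).pow_right 4).eq

/-- a group of exponent dividing twenty acting freely on a nontrivial abelian group is finite -/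
theorem finite_twenty (hf : IsFree G V) (hG : ∀ g : G, g ^ 20 = 1) : Finite G := by
  by_cases hi : ∃ i : G, i ^ 4 = 1 ∧ i ^ 2 ≠ 1
  swap
  · push Not at hi
    apply finite_ten (V := V) hf
    intro g
    rw [show 10 = 5 * 2 from rfl, pow_mul]
    exact hi (g ^ 5) (by rw [← pow_mul]; exact hG g)
  · obtain ⟨i, hi4, hi2⟩ := hi
    have hCi := cent_four (V := V) hf hG hi4 hi2
    by_cases hic : i ∈ Subgroup.center G
    · -- the whole group centralizes `i`
      rw [Subgroup.mem_center_iff] at hic
      have : {h : G | h * i = i * h} = Set.univ := by
        ext h; simp [hic h]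
      rw [this] at hCi
      exact Set.finite_univ_iff.1 hCi
    · -- the center is finite
      have hZ : ((Subgroup.center G : Subgroup G) : Set G).Finite := by
        refine hCi.subset ?_
        intro h hh
        exact (Subgroup.mem_center_iff.1 hh i).symm
      have hZf : Finite (Subgroup.center G) := hZ.to_subtype
      have hQ : Finite (G ⧸ Subgroup.center G) := by
        refine finite_of_centralizers (t := (i : G ⧸ Subgroup.center G)) ?_ ?_ ?_ ?_
        · intro q
          obtain ⟨g, rfl⟩ := QuotientGroup.mk_surjective q
          rw [← QuotientGroup.mk_pow, hG, QuotientGroup.mk_one]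
        · intro q hq
          obtain ⟨g, rfl⟩ := QuotientGroup.mk_surjective q
          have hgc : g ∉ Subgroup.center G := by
            rwa [← QuotientGroup.eq_one_iff]
          have hCg := cent_finite (V := V) hf hG hgc
          have hfin : {w : G | w * g⁻¹ ∈ Subgroup.center G}.Finite := by
            refine (hZ.image (fun z => z * g)).subset ?_
            intro w hw
            exact ⟨w * g⁻¹, hw, by group⟩
          have hpre := hfin.preimage' (f := fun h : G => h * g * h⁻¹) (fun w _ => by
            exact conj_finite hCg)
          refine (hpre.image (fun h : G => (h : G ⧸ Subgroup.center G))).subset ?_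
          intro p hp
          obtain ⟨h, rfl⟩ := QuotientGroup.mk_surjective p
          refine ⟨h, ?_, rfl⟩
          have hp' : (h : G ⧸ Subgroup.center G) * g = g * h := hp
          show h * g * h⁻¹ * g⁻¹ ∈ Subgroup.center G
          rw [← QuotientGroup.eq_one_iff]
          rw [QuotientGroup.mk_mul, QuotientGroup.mk_mul, QuotientGroup.mk_mul,
            QuotientGroup.mk_inv, QuotientGroup.mk_inv, hp']
          group
        · rw [← QuotientGroup.mk_mul]
          rw [QuotientGroup.eq_one_iff, ← pow_two, Subgroup.mem_center_iff]
          intro h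
          exact ((inv_of (V := V) hf (z := i ^ 2) (by rw [← pow_mul]; exact hi4) hi2).comm h).symm
        · intro h
          exact hic ((QuotientGroup.eq_one_iff i).1 h)
      exact Finite.of_equiv _ (Subgroup.groupEquivQuotientProdSubgroup
        (s := Subgroup.center G)).symm

end

end H10.FA
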