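import Mathlib
import Pool.Agent.H10.FA.Fin

/-!
# The order of a group of exponent twenty acting freely
-/

set_option autoImplicit false

universe u v

namespace H10.FA

open Q6.FreeAct

section

variable {G : Type v} {V : Type u} [Group G] [AddCommGroup V] [DistribMulAction G V]
  [Nontrivial V]

/-- a finite group of exponent four acting freely has order at most eight -/
theorem card_four (hf : IsFree G V) (hG : ∀ g : G, g ^ 4 = 1) [Finite G] : Nat.card G ≤ 8 := by
  have hEc : ∀ e : G, e ^ 2 = 1 → ∀ g : G, e * g = g * e := by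
    intro e he g
    by_cases he1 : e = 1
    · rw [he1, one_mul, mul_one]
    · exact (inv_of (V := V) hf he he1).comm g
  have h22 : ∀ g : G, (g ^ 2) ^ 2 = 1 := fun g => by rw [← pow_mul]; exact hG g
  by_cases hi : ∃ i : G, i ^ 2 ≠ 1
  · obtain ⟨i, hi2⟩ := hi
    -- every element is `i ^ n` or `k * i ^ n`
    have hcen : ∀ a : G, a * i = i * a → ∃ n : ZMod 4, a = i ^ n.val := fun a ha =>
      comm4 hf (hG i) hi2 (hG a) ha
    have hconj : ∀ k : G, k * i * k⁻¹ = i ∨ k * i * k⁻¹ = i⁻¹ := by
      intro k
      -- `(k i)^2 = e`, `k^2 = f`, `i ^ 2 = d`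
      have e1 : k * i * k⁻¹ = (k * i) ^ 2 * (k ^ 2)⁻¹ * i⁻¹ := by
        have hk := hEc _ (h22 k) i
        have : (k * i) ^ 2 * (k ^ 2)⁻¹ * i⁻¹ = k * i * k⁻¹ * (k ^ 2 * i * (k ^ 2)⁻¹) * i⁻¹ := by
          rw [pow_two (k * i)]
          group
        rw [this, hk]
        group
      have e2 : ((k * i) ^ 2 * (k ^ 2)⁻¹) ^ 2 = 1 := by
        rw [(show Commute ((k * i) ^ 2) ((k ^ 2)⁻¹) from hEc _ (h22 _) _).mul_pow, h22, inv_pow,
          h22, inv_one, one_mul]
      rw [e1]
      by_cases h1 : (k * i) ^ 2 * (k ^ 2)⁻¹ = 1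
      · right
        rw [h1, one_mul]
      · left
        have h3 := inv_unique (V := V) hf e2 h1 (h22 i) hi2
        rw [h3]; group
    by_cases hk : ∃ k : G, k * i * k⁻¹ ≠ i
    · obtain ⟨k, hk⟩ := hk
      have hsur : Function.Surjective (fun p : Fin 2 × ZMod 4 => k ^ (p.1 : ℕ) * i ^ p.2.val) := by
        intro g
        by_cases hg : g * i * g⁻¹ = i
        · obtain ⟨n, hn⟩ := hcen g (by
            rw [mul_inv_eq_iff_eq_mul] at hg; exact hg)
          exact ⟨(0, n), by simp [hn]⟩
        · have h1 : g * i * g⁻¹ = i⁻¹ := (hconj g).resolve_left hg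
          have h2 : k * i * k⁻¹ = i⁻¹ := (hconj k).resolve_left hk
          have h3 : k⁻¹ * g * i = i * (k⁻¹ * g) := by
            have : g * i * g⁻¹ = k * i * k⁻¹ := by rw [h1, h2]
            calc k⁻¹ * g * i = k⁻¹ * (g * i * g⁻¹) * g := by group
              _ = k⁻¹ * (k * i * k⁻¹) * g := by rw [this]
              _ = i * (k⁻¹ * g) := by group
          obtain ⟨n, hn⟩ := hcen _ h3
          refine ⟨(1, n), ?_⟩
          show k ^ 1 * i ^ n.val = g
          rw [← hn]; group
      have := Nat.card_le_card_of_surjective _ hsur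
      simpa using this
    · push Not at hk
      have hsur : Function.Surjective (fun p : ZMod 4 => i ^ p.val) := by
        intro g
        obtain ⟨n, hn⟩ := hcen g (by
          have := hk g
          rw [mul_inv_eq_iff_eq_mul] at this; exact this)
        exact ⟨n, hn.symm⟩
      have := Nat.card_le_card_of_surjective _ hsur
      have h4 : Nat.card (ZMod 4) = 4 := by simp
      omega
  · push Not at hi
    by_cases h : ∃ t : G, t ≠ 1
    · obtain ⟨t, ht1⟩ := h
      have hsur : Function.Surjective (fun p : Fin 2 => t ^ (p : ℕ)) := by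
        intro g
        by_cases hg : g = 1
        · exact ⟨0, by simp [hg]⟩
        · refine ⟨1, ?_⟩
          show t ^ 1 = g
          rw [pow_one]
          exact inv_unique (V := V) hf (hi t) ht1 (hi g) hg
      have := Nat.card_le_card_of_surjective _ hsur
      have h4 : Nat.card (Fin 2) = 2 := by simp
      omega
    · push Not at h
      have : Subsingleton G := ⟨fun a b => by rw [h a, h b]⟩
      have := Nat.card_unique (α := G)
      omega

omit [Nontrivial V] in
theorem free_sub (hf : IsFree G V) (H : Subgroup G) : IsFree H V := fun g hg w hw =>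
  hf g.1 (fun h => hg (Subtype.ext h)) w hw

/-- the order of a group of exponent dividing twenty acting freely divides forty -/
theorem card_dvd (hf : IsFree G V) (hG : ∀ g : G, g ^ 20 = 1) : Nat.card G ∣ 40 := by
  have hfin : Finite G := finite_twenty (V := V) hf hG
  have hn : Nat.card G ≠ 0 := Nat.card_pos.ne'
  rw [← Nat.factorization_le_iff_dvd hn (by norm_num)]
  intro p
  by_cases hp : p.Prime
  swap
  · rw [Nat.factorization_eq_zero_of_not_prime _ hp]; exact Nat.zero_le _
  by_cases hpn : p ∣ Nat.card G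
  swap
  · rw [Nat.factorization_eq_zero_of_not_dvd hpn]; exact Nat.zero_le _
  have : Fact p.Prime := ⟨hp⟩
  obtain ⟨g, hg⟩ := exists_prime_orderOf_dvd_card' p hpn
  have hp20 : p ∣ 20 := by rw [← hg]; exact orderOf_dvd_of_pow_eq_one (hG g)
  have hp25 : p = 2 ∨ p = 5 := by
    have : p ∣ 2 * 2 * 5 := hp20
    rw [hp.dvd_mul, hp.dvd_mul] at this
    rcases this with (h | h) | h
    · exact Or.inl ((Nat.prime_dvd_prime_iff_eq hp Nat.prime_two).1 h)
    · exact Or.inl ((Nat.prime_dvd_prime_iff_eq hp Nat.prime_two).1 h)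
    · exact Or.inr ((Nat.prime_dvd_prime_iff_eq hp Nat.prime_five).1 h)
  obtain ⟨P⟩ : Nonempty (Sylow p G) := inferInstance
  have hcard := P.card_eq_multiplicity
  have hPG : ∀ w : P, ∃ k : ℕ, orderOf w = p ^ k := by
    intro w
    have := P.2
    rw [IsPGroup.iff_orderOf] at this
    exact this w
  have h20 : ∀ w : P, w ^ 20 = 1 := fun w => Subtype.ext (hG w.1)
  rcases hp25 with rfl | rfl
  · -- the prime two
    have h4 : ∀ w : P, w ^ 4 = 1 := by
      intro w
      obtain ⟨k, hk⟩ := hPG w
      have h1 : orderOf w ∣ 20 := orderOf_dvd_of_pow_eq_one (h20 w)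
      rw [← orderOf_dvd_iff_pow_eq_one]
      have h2 : Nat.Coprime (orderOf w) 5 := by
        rw [hk]; exact Nat.Coprime.pow_left _ (by norm_num)
      exact h2.dvd_of_dvd_mul_right (show orderOf w ∣ 4 * 5 from h1)
    have h8 := card_four (V := V) (free_sub hf (P : Subgroup G)) h4
    have hc2 : Nat.card P = 2 ^ (Nat.card G).factorization 2 := hcard
    have h3 : 2 ^ (Nat.card G).factorization 2 ≤ 2 ^ 3 := by rw [← hc2]; exact h8
    have h5 := (Nat.pow_le_pow_iff_right (by norm_num)).1 h3
    have h6 : (40 : ℕ).factorization 2 = 3 := by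
      rw [show (40 : ℕ) = 2 ^ 3 * 5 from rfl, Nat.factorization_mul (by norm_num) (by norm_num),
        Nat.Prime.factorization_pow Nat.prime_two, Nat.Prime.factorization Nat.prime_five]
      simp
    rw [h6]; exact h5
  · have h5 : ∀ w : P, w ^ 5 = 1 := by
      intro w
      obtain ⟨k, hk⟩ := hPG w
      have h1 : orderOf w ∣ 20 := orderOf_dvd_of_pow_eq_one (h20 w)
      rw [← orderOf_dvd_iff_pow_eq_one]
      have h2 : Nat.Coprime (orderOf w) 4 := by
        rw [hk]; exact Nat.Coprime.pow_left _ (by norm_num)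
      exact h2.dvd_of_dvd_mul_left (show orderOf w ∣ 4 * 5 from h1)
    have hle : Nat.card P ≤ 5 := by
      by_cases hnt : Nontrivial P
      · have := P.2.center_nontrivial
        obtain ⟨x, hx1⟩ := exists_ne (1 : Subgroup.center (P : Subgroup G))
        have hx1' : (x : (P : Subgroup G)) ≠ 1 := fun h => hx1 (Subtype.ext h)
        have htop : ∀ y : (P : Subgroup G), y ∈ Subgroup.zpowers (x : (P : Subgroup G)) := by
          intro y
          exact mem_zpowers (V := V) (free_sub hf (P : Subgroup G)) (h5 _) (h5 y)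
            (Subgroup.mem_center_iff.1 x.2 y).symm hx1'
        have hcx : Nat.card (P : Subgroup G) = orderOf (x : (P : Subgroup G)) := by
          rw [← Nat.card_zpowers, (Subgroup.eq_top_iff' _).2 htop, Subgroup.card_top]
        have h6 : orderOf (x : (P : Subgroup G)) ∣ 5 := orderOf_dvd_of_pow_eq_one (h5 _)
        show Nat.card (P : Subgroup G) ≤ 5
        rw [hcx]
        exact Nat.le_of_dvd (by norm_num) h6
      · rw [not_nontrivial_iff_subsingleton] at hnt
        have := Nat.card_unique (α := P)
        omega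
    have hc5 : Nat.card P = 5 ^ (Nat.card G).factorization 5 := hcard
    have h3 : 5 ^ (Nat.card G).factorization 5 ≤ 5 ^ 1 := by rw [← hc5]; exact hle
    have h7 := (Nat.pow_le_pow_iff_right (by norm_num)).1 h3
    have h6 : (40 : ℕ).factorization 5 = 1 := by
      rw [show (40 : ℕ) = 2 ^ 3 * 5 from rfl, Nat.factorization_mul (by norm_num) (by norm_num),
        Nat.Prime.factorization_pow Nat.prime_two, Nat.Prime.factorization Nat.prime_five]
      simp
    rw [h6]; exact h7

end

end H10.FA
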